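import Pool.Agent.Helper57.BU.Cont
import Pool.Agent.Helper53.CL.Defs

/-!
# BU-07 The Borsuk-Ulam theorem

TO PROVE (in place).  Apply `bu_cube` to `F x = ofLp (f (‖x'‖⁻¹ • x'))`, `x' = WithLp.toLp 2 x` (nonzero for `‖x‖ = 1`; continuous, odd).
`not_genusLE_sphere`: the definition of `GenusLE`.  The last statement: extend by zero from `Fin k` to `Fin p` (`Fin.castLE`): if
`GenusLE` holds for `k ≤ p`, then it holds for `p`.
-/

set_option autoImplicit false

namespace BU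

open Metric Pool.Agent.Helper53.CL

theorem borsuk_ulam {p : ℕ} (f : EuclideanSpace ℝ (Fin (p + 1)) → EuclideanSpace ℝ (Fin p))
    (hf : ContinuousOn f (sphere 0 1)) (hodd : ∀ x ∈ sphere (0 : EuclideanSpace ℝ (Fin (p + 1))) 1, f (-x) = -f x) :
    ∃ x ∈ sphere (0 : EuclideanSpace ℝ (Fin (p + 1))) 1, f x = 0 := by
  let c : (Fin (p + 1) → ℝ) → EuclideanSpace ℝ (Fin (p + 1)) := fun x =>
    ‖(WithLp.toLp 2 x : EuclideanSpace ℝ (Fin (p + 1)))‖⁻¹ •
      (WithLp.toLp 2 x : EuclideanSpace ℝ (Fin (p + 1)))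
  have hne : ∀ x : Fin (p + 1) → ℝ, ‖x‖ = 1 →
      (WithLp.toLp 2 x : EuclideanSpace ℝ (Fin (p + 1))) ≠ 0 := by
    intro x hx h
    have h2 : x = 0 := by
      have := congrArg (WithLp.ofLp) h
      simpa using this
    rw [h2, norm_zero] at hx
    exact zero_ne_one hx
  have hc1 : ∀ x : Fin (p + 1) → ℝ, ‖x‖ = 1 →
      c x ∈ sphere (0 : EuclideanSpace ℝ (Fin (p + 1))) 1 := by
    intro x hx
    rw [mem_sphere_zero_iff_norm]
    simp only [c]
    rw [norm_smul, norm_inv, norm_norm, inv_mul_cancel₀]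
    exact norm_ne_zero_iff.2 (hne x hx)
  have hcneg : ∀ x : Fin (p + 1) → ℝ, c (-x) = -c x := by
    intro x
    simp only [c]
    rw [WithLp.toLp_neg, norm_neg, smul_neg]
  have hcc : ContinuousOn c {x | ‖x‖ = 1} := by
    have hto : Continuous (fun x : Fin (p + 1) → ℝ =>
        (WithLp.toLp 2 x : EuclideanSpace ℝ (Fin (p + 1)))) := PiLp.continuous_toLp 2 _
    have h1 : ContinuousOn (fun x : Fin (p + 1) → ℝ =>
        ‖(WithLp.toLp 2 x : EuclideanSpace ℝ (Fin (p + 1)))‖⁻¹) {x | ‖x‖ = 1} :=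
      (hto.norm.continuousOn).inv₀ fun x hx => norm_ne_zero_iff.2 (hne x hx)
    exact h1.smul hto.continuousOn
  obtain ⟨x, hx, hfx⟩ := bu_cube (p := p) (fun x => WithLp.ofLp (f (c x)))
    ((PiLp.continuous_ofLp 2 _).comp_continuousOn (hf.comp hcc fun x hx => hc1 x hx))
    (fun x hx => by
      rw [hcneg, hodd _ (hc1 x hx)]
      rfl)
  refine ⟨c x, hc1 x hx, ?_⟩
  have := congrArg (WithLp.toLp 2) hfx
  simpa using this

theorem not_genusLE_sphere {p k : ℕ} (hk : k ≤ p) :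
    ¬ GenusLE (sphere (0 : EuclideanSpace ℝ (Fin (p + 1))) 1) k := by
  rintro ⟨f, hf, hodd, hne⟩
  let g : EuclideanSpace ℝ (Fin (p + 1)) → EuclideanSpace ℝ (Fin p) := fun x =>
    WithLp.toLp 2 (fun i => if h : (i : ℕ) < k then f x ⟨i, h⟩ else 0)
  have hg : ContinuousOn g (sphere 0 1) := by
    refine (PiLp.continuous_toLp 2 _).comp_continuousOn ?_
    rw [continuousOn_pi]
    intro i
    by_cases h : (i : ℕ) < k
    · simp only [h, dite_true]
      have h2 := (PiLp.continuous_ofLp 2 (fun _ : Fin k => ℝ)).comp_continuousOn hf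
      exact (continuousOn_pi.1 h2) ⟨i, h⟩
    · simp only [h, dite_false]
      exact continuousOn_const
  have hgodd : ∀ x ∈ sphere (0 : EuclideanSpace ℝ (Fin (p + 1))) 1, g (-x) = -g x := by
    intro x hx
    simp only [g]
    rw [hodd x hx, ← WithLp.toLp_neg]
    congr 1
    funext i
    by_cases h : (i : ℕ) < k
    · simp [h]
    · simp [h]
  obtain ⟨x, hx, hgx⟩ := borsuk_ulam g hg hgodd
  refine hne x hx ?_
  ext i
  have h2 : g x ⟨i, by have := i.isLt; omega⟩ = 0 := by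
    rw [hgx]; rfl
  simp only [g] at h2
  have h3 : ((⟨(i : ℕ), by have := i.isLt; omega⟩ : Fin p) : ℕ) < k := i.isLt
  simpa [h3] using h2

end BU
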