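import Pool.Agent.Helper57.BU.Defs

/-!
# BU-01 Alternating families of labels

TO PROVE (in place).

* `Alt.comp_perm`: compose the permutations.  `Alt.neg_iff`: the same permutation.
* `Alt.injective`: absolute values are distinct.  `Alt.not_both`: if `m ≥ 1` the two permutations agree, because there is only one
  strictly increasing enumeration (`|l| ∘ σ` and `|l| ∘ τ` are strictly monotone with the same range; `StrictMono.range_inj`,
  then injectivity of `|l|`); the signs at `i = 0` are opposite.
* `Alt.card_le`: `|l (σ i)| ≥ i + 1` by induction, so `m ≤ p`.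
* `alt_card`: if `l` is not injective, `l i = l j` with `i ≠ j`: `Alt` fails for `l`, and for the facets other than `i`, `j` (`Alt.injective`);
  the facets omitting `i` and `j` differ by a permutation of `Fin m` (their multisets of labels agree), so the number is `0` or
  `2`.  If `l` is injective, then `|l|` is injective (no complementary pairs, in particular no zeros); composing with a
  permutation of `Fin (m + 1)` (both sides are invariant: the facets of `l ∘ τ` are the facets of `l` up to permutation, with
  `i` replaced by `τ i`) we may assume that `|l|` is strictly increasing (`Tuple.sort`).  Then the permutation in `Alt` is the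
  identity for `l` and for all facets.  Let `u i = (-1)^i * sign (l i)`.  `Alt 1 l` iff all `u i = 1`, `Alt (-1) l` iff all
  `u i = -1`, and the facet omitting `t` is alternating (`ε = 1`) iff `u i = 1` for `i < t` and `u i = -1` for `i > t`.
  Let `a` be the number of `i` with: `u j = 1` for all `j ≤ i`.  If some facet is alternating, then `u = 1` on `i < a` and
  `u = -1` on `i ≥ a`, and the facet `t` is alternating iff `t = a` or `t + 1 = a`; both occur iff `1 ≤ a ≤ m`; for `a = 0` only
  `t = 0` and for `a = m + 1` only `t = m`, and these are the cases where `l` is alternating.  If no facet is alternating then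
  `l` is not alternating either (`Alt 1 l` implies the facet omitting the last is alternating, `Alt (-1) l` implies the facet
  omitting `0` is alternating).
-/

set_option autoImplicit false

namespace BU

open Finset

theorem Alt.comp_perm {m : ℕ} {ε : ℤ} {l : Fin m → ℤ} (τ : Equiv.Perm (Fin m)) :
    Alt ε (fun i => l (τ i)) ↔ Alt ε l := by
  constructor
  · rintro ⟨σ, h1, h2⟩
    exact ⟨σ.trans τ, h1, h2⟩
  · rintro ⟨σ, h1, h2⟩
    refine ⟨σ.trans τ.symm, ?_, ?_⟩
    · have e : (fun i => |l (τ ((σ.trans τ.symm) i))|) = fun i => |l (σ i)| := by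
        funext i
        rw [Equiv.trans_apply, Equiv.apply_symm_apply]
      rw [e]
      exact h1
    · intro i
      show 0 < ε * (-1) ^ (i : ℕ) * l (τ ((σ.trans τ.symm) i))
      rw [Equiv.trans_apply, Equiv.apply_symm_apply]
      exact h2 i

theorem Alt.neg_iff {m : ℕ} {ε : ℤ} {l : Fin m → ℤ} : Alt ε (fun i => -l i) ↔ Alt (-ε) l := by
  have e : ∀ (x y z : ℤ), x * y * -z = -x * y * z := fun x y z => by ring
  constructor
  · rintro ⟨σ, h1, h2⟩
    refine ⟨σ, ?_, fun i => ?_⟩
    · simpa only [abs_neg] using h1
    · have := h2 i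
      rwa [e] at this
  · rintro ⟨σ, h1, h2⟩
    refine ⟨σ, ?_, fun i => ?_⟩
    · simpa only [abs_neg] using h1
    · rw [e]
      exact h2 i

private lemma Alt.abs_injective {m : ℕ} {ε : ℤ} {l : Fin m → ℤ} (h : Alt ε l) :
    Function.Injective (fun i => |l i|) := by
  obtain ⟨σ, h1, -⟩ := h
  intro i j hij
  have h2 := h1.injective (a₁ := σ.symm i) (a₂ := σ.symm j) (by
    simp only [Equiv.apply_symm_apply]
    exact hij)
  exact σ.symm.injective h2

theorem Alt.injective {m : ℕ} {ε : ℤ} {l : Fin m → ℤ} (h : Alt ε l) : Function.Injective l := by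
  intro i j hij
  exact h.abs_injective (congrArg (fun z => |z|) hij)

private lemma perm_eq_one {m : ℕ} {f : Fin m → ℤ} (hf : StrictMono f)
    (σ : Equiv.Perm (Fin m)) (hσ : StrictMono (fun i => f (σ i))) : ∀ i, σ i = i := by
  have h1 : Set.range (fun i => f (σ i)) = Set.range f := by
    ext z
    constructor
    · rintro ⟨i, rfl⟩
      exact ⟨σ i, rfl⟩
    · rintro ⟨i, rfl⟩
      exact ⟨σ.symm i, by simp only [Equiv.apply_symm_apply]⟩
  have h2 := (StrictMono.range_inj hσ hf).1 h1
  intro i
  exact hf.injective (congrFun h2 i)

private lemma alt_iff {m : ℕ} {ε : ℤ} {l : Fin m → ℤ} (hl : StrictMono (fun i => |l i|)) :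
    Alt ε l ↔ ∀ i : Fin m, 0 < ε * (-1) ^ (i : ℕ) * l i := by
  constructor
  · rintro ⟨σ, h1, h2⟩ i
    have h3 := perm_eq_one hl σ h1
    have h4 := h2 i
    rwa [h3 i] at h4
  · intro h
    exact ⟨1, hl, h⟩

theorem Alt.not_both {m : ℕ} {l : Fin (m + 1) → ℤ} (h : Alt 1 l) (h' : Alt (-1) l) : False := by
  obtain ⟨σ, h1, h2⟩ := h
  have h3 : Alt (-1) (fun i => l (σ i)) := (Alt.comp_perm σ).2 h'
  have h4 := (alt_iff h1).1 h3 0
  have h5 := h2 0
  simp only [Fin.val_zero, pow_zero, mul_one, one_mul] at h4 h5
  omega

theorem Alt.card_le {m : ℕ} {ε : ℤ} {l : Fin m → ℤ} (h : Alt ε l) {p : ℕ} (hp : ∀ i, |l i| ≤ (p : ℤ)) :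
    m ≤ p := by
  obtain ⟨σ, h1, h2⟩ := h
  have h3 : ∀ k : ℕ, ∀ hk : k < m, (k : ℤ) + 1 ≤ |l (σ ⟨k, hk⟩)| := by
    intro k
    induction k with
    | zero =>
      intro hk
      have h4 := h2 ⟨0, hk⟩
      have h5 : l (σ ⟨0, hk⟩) ≠ 0 := by
        intro h6
        rw [h6, mul_zero] at h4
        exact lt_irrefl _ h4
      have h6 := Int.one_le_abs h5
      push_cast
      omega
    | succ k ih =>
      intro hk
      have h4 := ih (by omega)
      have h5 : |l (σ ⟨k, by omega⟩)| < |l (σ ⟨k + 1, hk⟩)| :=
        h1 (a := ⟨k, by omega⟩) (b := ⟨k + 1, hk⟩) (by rw [Fin.mk_lt_mk]; omega)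
      push_cast
      omega
  rcases Nat.eq_zero_or_pos m with h0 | h0
  · omega
  · have h4 := h3 (m - 1) (by omega)
    have h5 := hp (σ ⟨m - 1, by omega⟩)
    omega

theorem alt_one {l : Fin 1 → ℤ} (h : l 0 ≠ 0) : Alt 1 l ∨ Alt (-1) l := by
  have hm : StrictMono (fun i : Fin 1 => |l i|) := Subsingleton.strictMono _
  rcases lt_or_gt_of_ne h with h1 | h1
  · right
    rw [alt_iff hm]
    intro i
    have hi : i = 0 := Subsingleton.elim _ _
    rw [hi]
    simp only [Fin.val_zero, pow_zero, mul_one]
    omega
  · left
    rw [alt_iff hm]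
    intro i
    have hi : i = 0 := Subsingleton.elim _ _
    rw [hi]
    simp only [Fin.val_zero, pow_zero, mul_one]
    omega

/-- permutations and facets -/
private lemma exists_tau {m : ℕ} (π : Equiv.Perm (Fin (m + 1))) (i : Fin (m + 1)) :
    ∃ τ : Equiv.Perm (Fin m), ∀ j, π (i.succAbove j) = (π i).succAbove (τ j) := by
  have hne : ∀ x : Fin (m + 1), x ≠ i ↔ π x ≠ π i := fun x => π.injective.ne_iff.symm
  refine ⟨((finSuccAboveEquiv i).trans (π.subtypeEquiv hne)).trans
    (finSuccAboveEquiv (π i)).symm, fun j => ?_⟩
  have h1 : ((finSuccAboveEquiv (π i)) ((((finSuccAboveEquiv i).trans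
      (π.subtypeEquiv hne)).trans (finSuccAboveEquiv (π i)).symm) j) : Fin (m + 1)) =
      π (i.succAbove j) := by
    rw [Equiv.trans_apply, Equiv.apply_symm_apply]
    rfl
  exact h1.symm

private lemma facet_perm {m : ℕ} (l : Fin (m + 1) → ℤ) (π : Equiv.Perm (Fin (m + 1)))
    (i : Fin (m + 1)) (ε : ℤ) :
    Alt ε (fun j => l (π (i.succAbove j))) ↔ Alt ε (fun j => l ((π i).succAbove j)) := by
  obtain ⟨τ, hτ⟩ := exists_tau π i
  have h1 : (fun j => l (π (i.succAbove j))) = fun j => (fun j => l ((π i).succAbove j)) (τ j) := by
    funext j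
    simp only [hτ]
  rw [h1, Alt.comp_perm (l := fun j => l ((π i).succAbove j)) τ]

open Classical in
/-- the combinatorial statement -/
private lemma count {m : ℕ} (P : Fin (m + 1) → Prop) :
    (univ.filter fun t : Fin (m + 1) => (∀ i, i < t → P i) ∧ ∀ i, t < i → ¬ P i).card % 2 =
      if (∀ i, P i) ∨ (∀ i, ¬ P i) then 1 else 0 := by
  by_cases hex : ∃ t : Fin (m + 1), (∀ i, i < t → P i) ∧ ∀ i, t < i → ¬ P i
  · obtain ⟨t, h1, h2⟩ := hex
    by_cases ht : P t
    · by_cases hl : t = Fin.last m
      · -- all hold
        have hall : ∀ i, P i := by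
          intro i
          rcases lt_or_eq_of_le (Fin.le_last i) with h3 | h3
          · exact h1 i (by rw [hl]; exact h3)
          · rw [h3, ← hl]
            exact ht
        rw [if_pos (Or.inl hall)]
        have e : (univ.filter fun t : Fin (m + 1) => (∀ i, i < t → P i) ∧ ∀ i, t < i → ¬ P i) =
            {Fin.last m} := by
          ext s
          rw [mem_filter, mem_singleton]
          constructor
          · rintro ⟨-, -, h4⟩
            by_contra hs
            exact h4 (Fin.last m) (lt_of_le_of_ne (Fin.le_last s) hs) (hall _)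
          · intro hs
            rw [hs]
            exact ⟨mem_univ _, fun i _ => hall i, fun i hi => absurd hi (not_lt.2 (Fin.le_last i))⟩
        rw [e, card_singleton]
      · have hlt : (t : ℕ) + 1 < m + 1 := by
          have h3 := t.2
          have h4 : (t : ℕ) ≠ m := fun h => hl (Fin.ext h)
          omega
        set t' : Fin (m + 1) := ⟨t + 1, hlt⟩ with ht'
        have htt' : t < t' := by
          rw [Fin.lt_def]
          show (t : ℕ) < t + 1
          omega
        have hnot : ¬ ((∀ i, P i) ∨ ∀ i, ¬ P i) := by
          rintro (h3 | h3)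
          · exact h2 t' htt' (h3 t')
          · exact h3 t ht
        rw [if_neg hnot]
        have e : (univ.filter fun t : Fin (m + 1) => (∀ i, i < t → P i) ∧ ∀ i, t < i → ¬ P i) =
            {t, t'} := by
          ext s
          rw [mem_filter, mem_insert, mem_singleton]
          constructor
          · rintro ⟨-, h3, h4⟩
            rcases lt_trichotomy s t with h5 | h5 | h5
            · exact absurd ht (h4 t h5)
            · exact Or.inl h5
            · right
              by_contra h6
              have h7 : t' < s := by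
                rw [Fin.lt_def] at h5 ⊢
                have h8 : (s : ℕ) ≠ (t : ℕ) + 1 := fun h => h6 (Fin.ext h)
                show (t : ℕ) + 1 < s
                omega
              exact h2 t' htt' (h3 t' h7)
          · rintro (h3 | h3)
            · rw [h3]
              exact ⟨mem_univ _, h1, h2⟩
            · rw [h3]
              refine ⟨mem_univ _, fun i hi => ?_, fun i hi => h2 i (htt'.trans hi)⟩
              rw [Fin.lt_def] at hi
              have h4 : (i : ℕ) < t + 1 := hi
              rcases lt_or_eq_of_le (Nat.lt_succ_iff.1 h4) with h5 | h5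
              · exact h1 i (Fin.lt_def.2 h5)
              · have : i = t := Fin.ext h5
                rw [this]
                exact ht
        rw [e, card_pair htt'.ne]
    · by_cases hl : (t : ℕ) = 0
      · have ht0 : t = 0 := Fin.ext hl
        have hall : ∀ i, ¬ P i := by
          intro i
          rcases Nat.eq_zero_or_pos (i : ℕ) with h3 | h3
          · have : i = t := Fin.ext (by rw [h3, hl])
            rw [this]
            exact ht
          · exact h2 i (by rw [Fin.lt_def, hl]; exact h3)
        rw [if_pos (Or.inr hall)]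
        have e : (univ.filter fun t : Fin (m + 1) => (∀ i, i < t → P i) ∧ ∀ i, t < i → ¬ P i) =
            {t} := by
          ext s
          rw [mem_filter, mem_singleton]
          constructor
          · rintro ⟨-, h3, -⟩
            by_contra hs
            have h5 : t < s := by
              rw [Fin.lt_def, hl]
              have : (s : ℕ) ≠ t := fun h => hs (Fin.ext h)
              omega
            exact hall t (h3 t h5)
          · intro hs
            rw [hs]
            exact ⟨mem_univ _, h1, h2⟩
        rw [e, card_singleton]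
      · have hlt : (t : ℕ) - 1 < m + 1 := by
          have := t.2
          omega
        set t' : Fin (m + 1) := ⟨t - 1, hlt⟩ with ht'
        have htt' : t' < t := by
          rw [Fin.lt_def]
          show (t : ℕ) - 1 < t
          omega
        have hnot : ¬ ((∀ i, P i) ∨ ∀ i, ¬ P i) := by
          rintro (h3 | h3)
          · exact ht (h3 t)
          · exact h3 t' (h1 t' htt')
        rw [if_neg hnot]
        have e : (univ.filter fun t : Fin (m + 1) => (∀ i, i < t → P i) ∧ ∀ i, t < i → ¬ P i) =
            {t', t} := by
          ext s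
          rw [mem_filter, mem_insert, mem_singleton]
          constructor
          · rintro ⟨-, h3, h4⟩
            rcases lt_trichotomy s t with h5 | h5 | h5
            · left
              by_contra h6
              have h7 : s < t' := by
                rw [Fin.lt_def] at h5 ⊢
                have h8 : (s : ℕ) ≠ (t : ℕ) - 1 := fun h => h6 (Fin.ext h)
                show (s : ℕ) < t - 1
                omega
              exact h4 t' h7 (h1 t' htt')
            · exact Or.inr h5
            · exact absurd (h3 t h5) ht
          · rintro (h3 | h3)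
            · rw [h3]
              refine ⟨mem_univ _, fun i hi => h1 i (hi.trans htt'), fun i hi => ?_⟩
              rw [Fin.lt_def] at hi
              have h4 : (t : ℕ) - 1 < i := hi
              rcases Nat.lt_or_ge (t : ℕ) i with h5 | h5
              · exact h2 i (Fin.lt_def.2 h5)
              · have : i = t := Fin.ext (by omega)
                rw [this]
                exact ht
            · rw [h3]
              exact ⟨mem_univ _, h1, h2⟩
        rw [e, card_pair htt'.ne]
  · have hnot : ¬ ((∀ i, P i) ∨ ∀ i, ¬ P i) := by
      rintro (h3 | h3)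
      · exact hex ⟨Fin.last m, fun i _ => h3 i, fun i hi => absurd hi (not_lt.2 (Fin.le_last i))⟩
      · exact hex ⟨0, fun i hi => absurd hi (not_lt.2 (Fin.zero_le i)), fun i _ => h3 i⟩
    rw [if_neg hnot]
    have e : (univ.filter fun t : Fin (m + 1) => (∀ i, i < t → P i) ∧ ∀ i, t < i → ¬ P i) = ∅ := by
      rw [filter_eq_empty_iff]
      intro t _ h
      exact hex ⟨t, h⟩
    rw [e, card_empty]

open Classical in
private lemma alt_card_mono {m : ℕ} (l : Fin (m + 1) → ℤ) (hl : StrictMono (fun i => |l i|))
    (h0 : ∀ i, l i ≠ 0) :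
    (univ.filter fun i : Fin (m + 1) => Alt 1 (fun j => l (i.succAbove j))).card % 2 =
      if Alt 1 l ∨ Alt (-1) l then 1 else 0 := by
  obtain ⟨P, hP⟩ : ∃ P : Fin (m + 1) → Prop, ∀ i, P i ↔ 0 < (-1) ^ (i : ℕ) * l i :=
    ⟨_, fun _ => Iff.rfl⟩
  have hsgn : ∀ k : ℕ, ((-1 : ℤ) ^ k = 1 ∨ (-1 : ℤ) ^ k = -1) := fun k => neg_one_pow_eq_or ℤ k
  have hnP : ∀ i, ¬ P i ↔ 0 < -1 * (-1) ^ (i : ℕ) * l i := by
    intro i
    have h1 := h0 i
    rw [hP]
    rcases hsgn (i : ℕ) with h2 | h2
    · simp only [h2]
      omega
    · simp only [h2]
      omega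
  have e1 : Alt 1 l ↔ ∀ i, P i := by
    rw [alt_iff hl]
    refine forall_congr' fun i => ?_
    rw [one_mul, hP]
  have e2 : Alt (-1) l ↔ ∀ i, ¬ P i := by
    rw [alt_iff hl]
    exact forall_congr' fun i => (hnP i).symm
  have e3 : ∀ t : Fin (m + 1), Alt 1 (fun j => l (t.succAbove j)) ↔
      (∀ i, i < t → P i) ∧ ∀ i, t < i → ¬ P i := by
    intro t
    have hl' : StrictMono (fun j => |l (t.succAbove j)|) := hl.comp (Fin.strictMono_succAbove t)
    rw [alt_iff hl']
    constructor
    · intro h
      constructor
      · intro i hi
        have him : (i : ℕ) < m := by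
          have := t.2
          rw [Fin.lt_def] at hi
          omega
        have h1 := h ⟨i, him⟩
        have h2 : t.succAbove ⟨i, him⟩ = i := by
          rw [Fin.succAbove_of_castSucc_lt]
          · rfl
          · exact hi
        rw [h2, one_mul] at h1
        exact (hP i).2 h1
      · intro i hi
        rw [hnP]
        have hi0 : 0 < (i : ℕ) := by
          rw [Fin.lt_def] at hi
          omega
        have him : (i : ℕ) - 1 < m := by
          have := i.2
          omega
        have h1 := h ⟨i - 1, him⟩
        have h2 : t.succAbove ⟨i - 1, him⟩ = i := by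
          rw [Fin.succAbove_of_le_castSucc]
          · apply Fin.ext
            rw [Fin.val_succ]
            show (i : ℕ) - 1 + 1 = i
            omega
          · rw [Fin.le_def]
            rw [Fin.lt_def] at hi
            show (t : ℕ) ≤ i - 1
            omega
        rw [h2, one_mul] at h1
        have h3 : (-1 : ℤ) ^ (i : ℕ) = (-1) ^ ((i : ℕ) - 1) * (-1) := by
          rw [← pow_succ]
          congr 1
          omega
        rw [h3]
        have h4 : (-1 : ℤ) * ((-1) ^ ((i : ℕ) - 1) * -1) * l i = (-1) ^ ((i : ℕ) - 1) * l i := by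
          ring
        rw [h4]
        exact h1
    · rintro ⟨h1, h2⟩ j
      rw [one_mul]
      rcases lt_or_ge j.castSucc t with h3 | h3
      · rw [Fin.succAbove_of_castSucc_lt t j h3]
        have h4 := h1 _ h3
        exact (hP _).1 h4
      · rw [Fin.succAbove_of_le_castSucc t j h3]
        have h4 : t < j.succ := lt_of_le_of_lt h3 (Fin.castSucc_lt_succ)
        have h5 := (hnP _).1 (h2 _ h4)
        rw [Fin.val_succ, pow_succ] at h5
        have h6 : (-1 : ℤ) * ((-1) ^ (j : ℕ) * -1) * l j.succ = (-1) ^ (j : ℕ) * l j.succ := by
          ring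
        rw [h6] at h5
        exact h5
  have e4 : (univ.filter fun i : Fin (m + 1) => Alt 1 (fun j => l (i.succAbove j))) =
      univ.filter fun t : Fin (m + 1) => (∀ i, i < t → P i) ∧ ∀ i, t < i → ¬ P i :=
    filter_congr fun t _ => e3 t
  have key := count P
  rw [e4]
  simp only [e1, e2]
  convert key using 3

open Classical in
theorem alt_card {m : ℕ} (l : Fin (m + 1) → ℤ) (h : ∀ i j, l i ≠ -l j) :
    (univ.filter fun i : Fin (m + 1) => Alt 1 (fun j => l (i.succAbove j))).card % 2 =
      if Alt 1 l ∨ Alt (-1) l then 1 else 0 := by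
  have h0 : ∀ i, l i ≠ 0 := by
    intro i hi
    apply h i i
    rw [hi, neg_zero]
  by_cases hinj : Function.Injective l
  · have habs : Function.Injective (fun i => |l i|) := by
      intro i j hij
      rcases abs_eq_abs.1 hij with h1 | h1
      · exact hinj h1
      · exact absurd h1 (h i j)
    set π : Equiv.Perm (Fin (m + 1)) := Tuple.sort (fun i => |l i|) with hπ
    have hmono : StrictMono (fun i => |l (π i)|) :=
      (Tuple.monotone_sort (fun i => |l i|)).strictMono_of_injective (habs.comp π.injective)
    have key := alt_card_mono (fun i => l (π i)) hmono (fun i => h0 _)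
    rw [Alt.comp_perm π, Alt.comp_perm π] at key
    rw [← key]
    congr 1
    symm
    refine card_bij (fun i _ => π i) ?_ ?_ ?_
    · intro i hi
      rw [mem_filter] at hi ⊢
      exact ⟨mem_univ _, (facet_perm l π i 1).1 hi.2⟩
    · intro i _ j _ hij
      exact π.injective hij
    · intro i hi
      rw [mem_filter] at hi
      refine ⟨π.symm i, ?_, Equiv.apply_symm_apply _ _⟩
      rw [mem_filter]
      refine ⟨mem_univ _, (facet_perm l π (π.symm i) 1).2 ?_⟩
      rw [Equiv.apply_symm_apply]
      exact hi.2
  · have hinj' := hinj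
    unfold Function.Injective at hinj'
    push Not at hinj'
    obtain ⟨a, b, hab, hne⟩ := hinj'
    have hno : ¬ (Alt 1 l ∨ Alt (-1) l) := by
      rintro (h1 | h1)
      · exact hinj h1.injective
      · exact hinj h1.injective
    rw [if_neg hno]
    have hoff : ∀ i, Alt 1 (fun j => l (i.succAbove j)) → i = a ∨ i = b := by
      intro i hi
      by_contra hcon
      push Not at hcon
      obtain ⟨ja, hja⟩ := Fin.exists_succAbove_eq hcon.1.symm
      obtain ⟨jb, hjb⟩ := Fin.exists_succAbove_eq hcon.2.symm
      have h1 := hi.injective (a₁ := ja) (a₂ := jb) (by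
        simp only [hja, hjb]
        exact hab)
      rw [h1, hjb] at hja
      exact hne hja.symm
    have hswap : ∀ x, l (Equiv.swap a b x) = l x := by
      intro x
      by_cases hxa : x = a
      · rw [hxa, Equiv.swap_apply_left, hab]
      · by_cases hxb : x = b
        · rw [hxb, Equiv.swap_apply_right, hab]
        · rw [Equiv.swap_apply_of_ne_of_ne hxa hxb]
    have hiff : Alt 1 (fun j => l (a.succAbove j)) ↔ Alt 1 (fun j => l (b.succAbove j)) := by
      have h1 := facet_perm l (Equiv.swap a b) a 1
      simp only [hswap, Equiv.swap_apply_left] at h1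
      exact h1
    by_cases hA : Alt 1 (fun j => l (a.succAbove j))
    · have e : (univ.filter fun i : Fin (m + 1) => Alt 1 (fun j => l (i.succAbove j))) =
          {a, b} := by
        ext i
        rw [mem_filter, mem_insert, mem_singleton]
        constructor
        · rintro ⟨-, h1⟩
          exact hoff i h1
        · rintro (h1 | h1)
          · rw [h1]
            exact ⟨mem_univ _, hA⟩
          · rw [h1]
            exact ⟨mem_univ _, hiff.1 hA⟩
      rw [e, card_pair hne]
    · have e : (univ.filter fun i : Fin (m + 1) => Alt 1 (fun j => l (i.succAbove j))) = ∅ := by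
        rw [filter_eq_empty_iff]
        intro i _ h1
        rcases hoff i h1 with h2 | h2
        · rw [h2] at h1
          exact hA h1
        · rw [h2] at h1
          exact hA (hiff.2 h1)
      rw [e, card_empty]

end BU
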