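import Pool.Agent.Helper57.BU.Tucker

/-!
# BU-06 Borsuk-Ulam for the boundary of the cube

TO PROVE (in place).  (`Fin (p+1) → ℝ` has the supremum norm.)  If `p = 0` every `x` with `‖x‖ = 1` works (`f x = 0` as functions on
`Fin 0`).  Let `p ≥ 1` and suppose that `f` has no zero on the unit sphere, a compact set.  Then `‖f x‖ ≥ δ > 0` there, and `f` is
uniformly continuous there (`IsCompact.uniformContinuousOn_of_continuous`): `‖f x - f y‖ < δ` for `‖x - y‖ < η`.  Choose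
`n ≥ 1` with `1 / (2n) < η`.  For `x ∈ Bd (p+1) n` the point `x̂ = fun i => x i / (2n)` is on the unit sphere.  Let `j x` be the least
index with `|f x̂ j| = ‖f x̂‖` (it exists: `pi_norm` is attained for finite index sets), and
`lam x = (j x + 1)` if `f x̂ (j x) > 0`, `- (j x + 1)` otherwise.  Then `lam (-x) = - lam x` (`f (-x̂) = - f x̂`, the same index),
`1 ≤ |lam x| ≤ p`.  By `tucker` there are `x`, `y` with `Fle y x`, `lam y = - lam x`: `j x = j y = j`, `|f x̂ j| ≥ δ`,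
`|f ŷ j| ≥ δ` with opposite signs, so `‖f x̂ - f ŷ‖ ≥ 2 δ`, but `‖x̂ - ŷ‖ ≤ 1 / (2n) < η`.
-/

set_option autoImplicit false

namespace BU

private noncomputable def hat {P : ℕ} (n : ℕ) (x : Fin P → ℤ) : Fin P → ℝ :=
  fun i => (x i : ℝ) / (2 * (n : ℝ))

private theorem hat_neg {P : ℕ} (n : ℕ) (x : Fin P → ℤ) : hat n (-x) = -hat n x := by
  funext i
  simp [hat, neg_div]

private theorem norm_hat {P n : ℕ} (hn : 1 ≤ n) {x : Fin P → ℤ} (hx : x ∈ Bd P n) :
    ‖hat n x‖ = 1 := by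
  have hn' : (0 : ℝ) < 2 * (n : ℝ) := by
    have : (1 : ℝ) ≤ n := by exact_mod_cast hn
    linarith
  unfold Bd Box at hx
  rw [Finset.mem_filter, Fintype.mem_piFinset] at hx
  obtain ⟨hx1, i, hi⟩ := hx
  apply le_antisymm
  · rw [pi_norm_le_iff_of_nonneg zero_le_one]
    intro k
    have hk := hx1 k
    rw [Finset.mem_Icc] at hk
    have hk' : |x k| ≤ 2 * (n : ℤ) := abs_le.2 hk
    have hk2 : |(x k : ℝ)| ≤ 2 * (n : ℝ) := by exact_mod_cast hk'
    rw [hat, Real.norm_eq_abs, abs_div, abs_of_pos hn', div_le_one hn']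
    exact hk2
  · have h1 := norm_le_pi_norm (hat n x) i
    have h2 : ‖hat n x i‖ = 1 := by
      have hi2 : |(x i : ℝ)| = 2 * (n : ℝ) := by exact_mod_cast hi
      rw [hat, Real.norm_eq_abs, abs_div, abs_of_pos hn', hi2, div_self hn'.ne']
    rw [h2] at h1
    exact h1

private theorem exists_abs_eq {p : ℕ} (hp : 1 ≤ p) (v : Fin p → ℝ) : ∃ j, |v j| = ‖v‖ := by
  have : Nonempty (Fin p) := ⟨⟨0, hp⟩⟩
  obtain ⟨j, hj⟩ := Finite.exists_max (fun j => |v j|)
  refine ⟨j, le_antisymm (norm_le_pi_norm v j) ?_⟩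
  rw [pi_norm_le_iff_of_nonneg (abs_nonneg _)]
  exact hj

theorem bu_cube {p : ℕ} (f : (Fin (p + 1) → ℝ) → (Fin p → ℝ))
    (hf : ContinuousOn f {x | ‖x‖ = 1}) (hodd : ∀ x, ‖x‖ = 1 → f (-x) = -f x) :
    ∃ x : Fin (p + 1) → ℝ, ‖x‖ = 1 ∧ f x = 0 := by
  classical
  have h1 : ‖(fun _ => 1 : Fin (p + 1) → ℝ)‖ = 1 := by
    rw [pi_norm_const]
    simp
  rcases Nat.eq_zero_or_pos p with hp | hp
  · subst hp
    exact ⟨fun _ => 1, h1, funext fun i => i.elim0⟩
  by_contra hcon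
  have hne : ∀ x, ‖x‖ = 1 → f x ≠ 0 := fun x hx h => hcon ⟨x, hx, h⟩
  have hS : IsCompact {x : Fin (p + 1) → ℝ | ‖x‖ = 1} := by
    have h2 : {x : Fin (p + 1) → ℝ | ‖x‖ = 1} = Metric.sphere 0 1 := by
      ext x; simp
    rw [h2]
    exact isCompact_sphere 0 1
  obtain ⟨x0, hx0, hmin⟩ := hS.exists_isMinOn ⟨_, h1⟩ hf.norm
  have hδ : 0 < ‖f x0‖ := norm_pos_iff.2 (hne x0 hx0)
  have hmin' : ∀ x, ‖x‖ = 1 → ‖f x0‖ ≤ ‖f x‖ := fun x hx => hmin hx
  obtain ⟨η, hη, huc⟩ := Metric.uniformContinuousOn_iff.1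
    (hS.uniformContinuousOn_of_continuous hf) ‖f x0‖ hδ
  obtain ⟨m, hm⟩ := exists_nat_one_div_lt hη
  set n := m + 1 with hn
  have hn1 : 1 ≤ n := by omega
  have hnR : (1 : ℝ) ≤ n := by exact_mod_cast hn1
  have hn' : (0 : ℝ) < 2 * (n : ℝ) := by linarith
  have hsmall : 1 / (2 * (n : ℝ)) < η := by
    refine lt_of_le_of_lt ?_ hm
    have : ((m : ℝ) + 1) = (n : ℝ) := by rw [hn]; push_cast; ring
    rw [this]
    exact one_div_le_one_div_of_le (by linarith) (by linarith)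
  have hnp : Nonempty (Fin p) := ⟨⟨0, hp⟩⟩
  let J : (Fin p → ℝ) → Fin p := fun v => Classical.epsilon (fun j => |v j| = ‖v‖)
  have hJ : ∀ v : Fin p → ℝ, |v (J v)| = ‖v‖ := fun v => Classical.epsilon_spec (exists_abs_eq hp v)
  have hJneg : ∀ v : Fin p → ℝ, J (-v) = J v := by
    intro v
    have : (fun j : Fin p => |(-v) j| = ‖-v‖) = (fun j : Fin p => |v j| = ‖v‖) := by
      funext j
      rw [Pi.neg_apply, abs_neg, norm_neg]
    change Classical.epsilon (fun j : Fin p => |(-v) j| = ‖-v‖) =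
      Classical.epsilon (fun j : Fin p => |v j| = ‖v‖)
    rw [this]
  let lam : (Fin (p + 1) → ℤ) → ℤ := fun x =>
    if 0 < f (hat n x) (J (f (hat n x))) then ((J (f (hat n x)) : ℕ) : ℤ) + 1
    else -(((J (f (hat n x)) : ℕ) : ℤ) + 1)
  have hval : ∀ x ∈ Bd (p + 1) n, ‖f x0‖ ≤ |f (hat n x) (J (f (hat n x)))| := by
    intro x hx
    rw [hJ]
    exact hmin' _ (norm_hat hn1 hx)
  have hlamneg : ∀ x ∈ Bd (p + 1) n, lam (-x) = -lam x := by
    intro x hx
    have h2 := hval x hx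
    have h3 : f (hat n (-x)) = -f (hat n x) := by
      rw [hat_neg]
      exact hodd _ (norm_hat hn1 hx)
    simp only [lam]
    rw [h3, hJneg, Pi.neg_apply]
    have h4 : f (hat n x) (J (f (hat n x))) ≠ 0 := by
      intro h
      rw [h, abs_zero] at h2
      linarith
    rcases lt_or_gt_of_ne h4 with h5 | h5
    · rw [if_pos (by linarith), if_neg (by linarith)]
      ring
    · rw [if_neg (by linarith), if_pos h5]
  have hlam0 : ∀ x ∈ Bd (p + 1) n, lam x ≠ 0 := by
    intro x _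
    simp only [lam]
    split_ifs <;> omega
  have hlamb : ∀ x ∈ Bd (p + 1) n, |lam x| ≤ ((p + 1 - 1 : ℕ) : ℤ) := by
    intro x _
    have h2 := (J (f (hat n x))).isLt
    simp only [lam]
    rw [abs_le]
    split_ifs <;> constructor <;> omega
  obtain ⟨x, hx, y, hy, hle, heq⟩ := tucker (P := p + 1) (n := n) (by omega) hn1 hlamneg hlam0 hlamb
  have hdist : dist (hat n x) (hat n y) < η := by
    rw [dist_pi_lt_iff hη]
    intro i
    refine lt_of_le_of_lt ?_ hsmall
    rw [Real.dist_eq]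
    have h2 : |((x i : ℝ)) - y i| ≤ 1 := by
      rcases hle i with h | ⟨_, h⟩
      · rw [h, sub_self, abs_zero]
        exact zero_le_one
      · have : |((y i : ℝ)) - x i| = 1 := by exact_mod_cast h
        rw [abs_sub_comm, this]
    have h3 : hat n x i - hat n y i = ((x i : ℝ) - y i) / (2 * (n : ℝ)) := by
      simp only [hat]
      ring
    rw [h3, abs_div, abs_of_pos hn']
    exact div_le_div_of_nonneg_right h2 hn'.le
  have hfd := huc _ (norm_hat hn1 hx) _ (norm_hat hn1 hy) hdist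
  have hx' := hval x hx
  have hy' := hval y hy
  have hcoord : ∀ j, |f (hat n x) j - f (hat n y) j| < ‖f x0‖ := by
    intro j
    refine lt_of_le_of_lt ?_ hfd
    rw [← Real.dist_eq]
    exact dist_le_pi_dist (f (hat n x)) (f (hat n y)) j
  simp only [lam] at heq
  set jx := J (f (hat n x)) with hjx
  set jy := J (f (hat n y)) with hjy
  by_cases hpx : 0 < f (hat n x) jx
  · rw [if_pos hpx] at heq
    by_cases hpy : 0 < f (hat n y) jy
    · rw [if_pos hpy] at heq
      omega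
    · rw [if_neg hpy] at heq
      have hjj : jy = jx := Fin.ext (by omega)
      rw [hjj] at hy' hpy
      rw [abs_of_pos hpx] at hx'
      rw [abs_of_nonpos (not_lt.1 hpy)] at hy'
      have h2 := (abs_lt.1 (hcoord jx)).2
      linarith
  · rw [if_neg hpx] at heq
    by_cases hpy : 0 < f (hat n y) jy
    · rw [if_pos hpy] at heq
      have hjj : jy = jx := Fin.ext (by omega)
      rw [hjj] at hy' hpy
      rw [abs_of_pos hpy] at hy'
      rw [abs_of_nonpos (not_lt.1 hpx)] at hx'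
      have h2 := (abs_lt.1 (hcoord jx)).1
      linarith
    · rw [if_neg hpy] at heq
      omega

end BU
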