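import Mathlib

/-!
# The Borsuk-Ulam theorem by Tucker's lemma: definitions (project CL, block C2)

The boundary of the cube `[-2n, 2n]^P` is divided into faces.  A face is encoded by its centre
`x : Fin P → ℤ`, all `|x i| ≤ 2n`, where the odd coordinates are the free directions: the face `x` has dimension `rk x`, the number of
odd coordinates, and the faces of `x` are the `y` with `y i = x i` or (`x i` odd and `y i = x i ± 1`).
-/

set_option autoImplicit false

namespace BU

open Finset

/-- `y` is a face of `x`. -/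
def Fle {P : ℕ} (y x : Fin P → ℤ) : Prop := ∀ i, y i = x i ∨ (Odd (x i) ∧ |y i - x i| = 1)

/-- The dimension of a face. -/
def rk {P : ℕ} (x : Fin P → ℤ) : ℕ := (univ.filter fun i => Odd (x i)).card

/-- All faces of the cube. -/
noncomputable def Box (P n : ℕ) : Finset (Fin P → ℤ) := Fintype.piFinset fun _ => Icc (-(2 * (n : ℤ))) (2 * (n : ℤ))

/-- The faces in the boundary of the cube. -/
noncomputable def Bd (P n : ℕ) : Finset (Fin P → ℤ) := (Box P n).filter fun x => ∃ i, |x i| = 2 * (n : ℤ)

/-- The faces of dimension `k` of the equator of dimension `k`. -/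
noncomputable def Sp (P n k : ℕ) : Finset (Fin P → ℤ) :=
  (Bd P n).filter fun x => (∀ i : Fin P, k < (i : ℕ) → x i = 0) ∧ rk x = k

/-- The faces of dimension `k` of the hemisphere of dimension `k`. -/
noncomputable def Hp (P n k : ℕ) : Finset (Fin P → ℤ) := (Sp P n k).filter fun x => ∃ i : Fin P, (i : ℕ) = k ∧ 0 < x i

/-- The labels alternate: sorted by absolute value, their signs are `ε, -ε, ε, ...`. -/
def Alt {m : ℕ} (ε : ℤ) (l : Fin m → ℤ) : Prop :=
  ∃ σ : Equiv.Perm (Fin m), StrictMono (fun i => |l (σ i)|) ∧ ∀ i : Fin m, 0 < ε * (-1) ^ (i : ℕ) * l (σ i)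

open Classical in
/-- Full flags of faces with last face in the hemisphere of dimension `k`. -/
noncomputable def Fl (P n k : ℕ) : Finset (Fin (k + 1) → Fin P → ℤ) :=
  (Fintype.piFinset fun _ => Bd P n).filter fun s =>
    (∀ i, rk (s i) = (i : ℕ)) ∧ (∀ i : Fin k, Fle (s i.castSucc) (s i.succ)) ∧ s (Fin.last k) ∈ Hp P n k

open Classical in
/-- The number of alternating flags. -/
noncomputable def T (P n k : ℕ) (lam : (Fin P → ℤ) → ℤ) : ℕ :=
  ((Fl P n k).filter fun s => Alt 1 (lam ∘ s) ∨ Alt (-1) (lam ∘ s)).card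

end BU
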