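import Pool.Agent.Helper57.BU.Defs

/-!
# BU-02 Faces of the cube

TO PROVE (in place).

* `Fle.trans`: if `z i ≠ x i` then `x i` is odd, `z i` is even, so `y i = z i`.
* `rk_add`: where `y i ≠ x i`, `x i` is odd and `y i` is even; elsewhere `y i = x i`.
* `bd_of_fle`: if `|x i| = 2n` then `x i` is even, so `y i = x i`; and where `y i ≠ x i`, `x i` is odd, `|x i| ≤ 2n - 1`, `|y i| ≤ 2n`.
* `diamond`: for every `i` one of `y i = z i`, `z i = x i` holds (see `Fle.trans`), so `(x + y - z) i` is `x i` resp. `y i`; the
  dimension is computed by `rk_add`: the coordinates where `x + y - z` and `x` differ are those where `y i = z i ≠ x i`... more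
  precisely `(x + y - z) i ≠ x i` iff `y i ≠ z i`, which happens for exactly one `i`.
  If `x + y - z = z` then `z i = y i` or `z i = x i` gives `x i = y i` for all `i`, contradiction with the dimensions.
* `diamond_bot`: `z` and `x` differ in exactly one coordinate, `z i = x i ± 1`, and `(x + x - z) i = x i ∓ 1`.
-/

set_option autoImplicit false

namespace BU

open Finset

variable {P n : ℕ} {x y z : Fin P → ℤ}

private lemma abs_one {a : ℤ} (h : |a| = 1) : a = 1 ∨ a = -1 := by
  rcases abs_eq (zero_le_one) |>.1 h with h | h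
  · exact Or.inl h
  · exact Or.inr h

theorem Fle.refl (x : Fin P → ℤ) : Fle x x := fun _ => Or.inl rfl

theorem Fle.trans (h : Fle y z) (h' : Fle z x) : Fle y x := by
  intro i
  rcases h' i with e | ⟨ho, ha⟩
  · have := h i
    rw [e] at this
    exact this
  · rcases h i with e | ⟨hz, -⟩
    · rw [e]
      exact Or.inr ⟨ho, ha⟩
    · exfalso
      rw [Int.odd_iff] at ho hz
      rcases abs_one ha with h1 | h1 <;> omega

theorem Fle.neg (h : Fle y x) : Fle (-y) (-x) := by
  intro i
  rcases h i with e | ⟨ho, ha⟩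
  · left
    rw [Pi.neg_apply, Pi.neg_apply, e]
  · right
    rw [Pi.neg_apply, Pi.neg_apply]
    refine ⟨ho.neg, ?_⟩
    rw [← ha, ← abs_neg]
    congr 1
    ring

theorem rk_neg (x : Fin P → ℤ) : rk (-x) = rk x := by
  unfold rk
  congr 1
  ext i
  rw [mem_filter, mem_filter, Pi.neg_apply, Int.odd_iff, Int.odd_iff]
  constructor
  · rintro ⟨_, h⟩
    exact ⟨mem_univ _, by omega⟩
  · rintro ⟨_, h⟩
    exact ⟨mem_univ _, by omega⟩

theorem rk_add (h : Fle y x) : rk y + (univ.filter fun i => y i ≠ x i).card = rk x := by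
  classical
  unfold rk
  rw [← card_union_of_disjoint]
  · congr 1
    ext i
    rw [mem_union, mem_filter, mem_filter, mem_filter]
    constructor
    · rintro (⟨_, h1⟩ | ⟨_, h1⟩)
      · rcases h i with e | ⟨ho, _⟩
        · rw [← e]
          exact ⟨mem_univ _, h1⟩
        · exact ⟨mem_univ _, ho⟩
      · rcases h i with e | ⟨ho, _⟩
        · exact absurd e h1
        · exact ⟨mem_univ _, ho⟩
    · rintro ⟨_, h1⟩
      by_cases h2 : y i = x i
      · left
        rw [h2]
        exact ⟨mem_univ _, h1⟩
      · exact Or.inr ⟨mem_univ _, h2⟩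
  · rw [disjoint_left]
    intro i h1 h2
    rw [mem_filter] at h1 h2
    rcases h i with e | ⟨ho, ha⟩
    · exact h2.2 e
    · have h3 := h1.2
      rw [Int.odd_iff] at ho h3
      rcases abs_one ha with h4 | h4 <;> omega

private lemma mem_Bd_iff {x : Fin P → ℤ} :
    x ∈ Bd P n ↔ (∀ i, |x i| ≤ 2 * (n : ℤ)) ∧ ∃ i, |x i| = 2 * (n : ℤ) := by
  unfold Bd Box
  rw [mem_filter, Fintype.mem_piFinset]
  constructor
  · rintro ⟨h1, h2⟩
    refine ⟨fun i => ?_, h2⟩
    have := h1 i
    rw [mem_Icc] at this
    rw [abs_le]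
    exact this
  · rintro ⟨h1, h2⟩
    refine ⟨fun i => ?_, h2⟩
    have := h1 i
    rw [abs_le] at this
    rw [mem_Icc]
    exact this

theorem neg_mem_Bd (h : x ∈ Bd P n) : -x ∈ Bd P n := by
  rw [mem_Bd_iff] at h ⊢
  simpa only [Pi.neg_apply, abs_neg] using h

theorem bd_of_fle (hx : x ∈ Bd P n) (h : Fle y x) : y ∈ Bd P n := by
  rw [mem_Bd_iff] at hx ⊢
  obtain ⟨h1, i0, h2⟩ := hx
  refine ⟨fun i => ?_, i0, ?_⟩
  · have h3 := h1 i
    rcases h i with e | ⟨ho, ha⟩
    · rw [e]
      exact h3
    · rw [Int.odd_iff] at ho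
      rw [abs_le] at h3 ⊢
      rcases abs_one ha with h4 | h4 <;> omega
  · rcases h i0 with e | ⟨ho, ha⟩
    · rw [e]
      exact h2
    · exfalso
      rw [Int.odd_iff] at ho
      rcases abs_choice (x i0) with h4 | h4 <;> omega

theorem diamond (hyz : Fle y z) (hzx : Fle z x) (h1 : rk z = rk y + 1) (h2 : rk x = rk z + 1) :
    Fle y (x + y - z) ∧ Fle (x + y - z) x ∧ rk (x + y - z) = rk z ∧ x + y - z ≠ z := by
  classical
  have hcase : ∀ i, y i = z i ∨ z i = x i := by
    intro i
    rcases hyz i with e | ⟨ho, ha⟩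
    · exact Or.inl e
    · rcases hzx i with e | ⟨ho', ha'⟩
      · exact Or.inr e
      · exfalso
        rw [Int.odd_iff] at ho ho'
        rcases abs_one ha' with h4 | h4 <;> omega
  have hw : ∀ i, (x + y - z) i = x i + y i - z i := fun i => rfl
  have hf1 : Fle y (x + y - z) := by
    intro i
    rw [hw]
    rcases hcase i with e | e
    · have h3 : x i + y i - z i = x i := by omega
      rw [h3]
      have h4 := hzx i
      rw [← e] at h4
      exact h4
    · left
      omega
  have hf2 : Fle (x + y - z) x := by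
    intro i
    rw [hw]
    rcases hcase i with e | e
    · left
      omega
    · have h3 : x i + y i - z i = y i := by omega
      rw [h3]
      have h4 := hyz i
      rw [e] at h4
      exact h4
  refine ⟨hf1, hf2, ?_, ?_⟩
  · have e1 := rk_add hf2
    have e2 := rk_add hyz
    have e3 : (univ.filter fun i => (x + y - z) i ≠ x i) = univ.filter fun i => y i ≠ z i := by
      ext i
      rw [mem_filter, mem_filter, hw]
      constructor
      · rintro ⟨h5, h6⟩
        exact ⟨h5, fun h7 => h6 (by omega)⟩
      · rintro ⟨h5, h6⟩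
        exact ⟨h5, fun h7 => h6 (by omega)⟩
    rw [e3] at e1
    omega
  · intro h3
    have h4 : x = y := by
      funext i
      have h5 := congrFun h3 i
      rw [hw] at h5
      rcases hcase i with e | e <;> omega
    rw [h4] at h2
    omega

theorem diamond_bot (hzx : Fle z x) (h2 : rk x = rk z + 1) :
    Fle (x + x - z) x ∧ rk (x + x - z) = rk z ∧ x + x - z ≠ z := by
  classical
  have hw : ∀ i, (x + x - z) i = x i + x i - z i := fun i => rfl
  have hf2 : Fle (x + x - z) x := by
    intro i
    rw [hw]
    rcases hzx i with e | ⟨ho, ha⟩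
    · left
      omega
    · right
      refine ⟨ho, ?_⟩
      rw [← ha, ← abs_neg]
      congr 1
      ring
  refine ⟨hf2, ?_, ?_⟩
  · have e1 := rk_add hf2
    have e2 := rk_add hzx
    have e3 : (univ.filter fun i => (x + x - z) i ≠ x i) = univ.filter fun i => z i ≠ x i := by
      ext i
      rw [mem_filter, mem_filter, hw]
      constructor
      · rintro ⟨h5, h6⟩
        exact ⟨h5, fun h7 => h6 (by omega)⟩
      · rintro ⟨h5, h6⟩
        exact ⟨h5, fun h7 => h6 (by omega)⟩
    rw [e3] at e1
    omega
  · intro h3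
    have h4 : x = z := by
      funext i
      have h5 := congrFun h3 i
      rw [hw] at h5
      omega
    rw [h4] at h2
    omega

private lemma neg_mem_Sp {k : ℕ} (h : x ∈ Sp P n k) : -x ∈ Sp P n k := by
  unfold Sp at h ⊢
  rw [mem_filter] at h ⊢
  obtain ⟨h1, h2, h3⟩ := h
  refine ⟨neg_mem_Bd h1, fun i hi => ?_, ?_⟩
  · rw [Pi.neg_apply, h2 i hi, neg_zero]
  · rw [rk_neg]
    exact h3

/-- the equator is the union of two opposite hemispheres -/
theorem mem_Sp_iff {k : ℕ} (hn : 1 ≤ n) (hk : k < P) :
    x ∈ Sp P n k ↔ (x ∈ Hp P n k ∨ -x ∈ Hp P n k) := by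
  classical
  constructor
  · intro h
    have hne : x ⟨k, hk⟩ ≠ 0 := by
      intro h0
      have h' := h
      unfold Sp at h'
      rw [mem_filter, mem_Bd_iff] at h'
      obtain ⟨⟨-, i0, hi0⟩, hz, hr⟩ := h'
      have hi0' : (i0 : ℕ) < k := by
        rcases lt_trichotomy (i0 : ℕ) k with h1 | h1 | h1
        · exact h1
        · exfalso
          have h2 : i0 = ⟨k, hk⟩ := Fin.ext h1
          rw [h2, h0, abs_zero] at hi0
          omega
        · exfalso
          rw [hz i0 h1, abs_zero] at hi0
          omega
      have hsub : (univ.filter fun i => Odd (x i)) ⊆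
          (univ.filter fun i : Fin P => (i : ℕ) < k).erase i0 := by
        intro i hi
        rw [mem_filter] at hi
        have hodd := hi.2
        rw [Int.odd_iff] at hodd
        rw [mem_erase, mem_filter]
        refine ⟨?_, mem_univ _, ?_⟩
        · rintro rfl
          rcases abs_choice (x i) with h4 | h4 <;> omega
        · rcases lt_trichotomy (i : ℕ) k with h1 | h1 | h1
          · exact h1
          · exfalso
            have h2 : i = ⟨k, hk⟩ := Fin.ext h1
            rw [h2, h0] at hodd
            omega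
          · exfalso
            rw [hz i h1] at hodd
            omega
      have hc := card_le_card hsub
      have hmem : i0 ∈ univ.filter fun i : Fin P => (i : ℕ) < k := by
        rw [mem_filter]
        exact ⟨mem_univ _, hi0'⟩
      rw [card_erase_of_mem hmem] at hc
      have hc2 : (univ.filter fun i : Fin P => (i : ℕ) < k).card ≤ k := by
        have h3 : (univ.filter fun i : Fin P => (i : ℕ) < k).card ≤ (range k).card := by
          refine card_le_card_of_injOn (fun i => (i : ℕ)) ?_ ?_
          · intro i hi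
            rw [mem_coe, mem_filter] at hi
            rw [mem_coe, mem_range]
            exact hi.2
          · intro i _ j _ hij
            exact Fin.ext hij
        rwa [card_range] at h3
      unfold rk at hr
      have hpos : 0 < (univ.filter fun i : Fin P => (i : ℕ) < k).card :=
        card_pos.2 ⟨i0, hmem⟩
      omega
    rcases lt_or_gt_of_ne hne with h1 | h1
    · right
      unfold Hp
      rw [mem_filter]
      refine ⟨neg_mem_Sp h, ⟨k, hk⟩, rfl, ?_⟩
      rw [Pi.neg_apply]
      omega
    · left
      unfold Hp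
      rw [mem_filter]
      exact ⟨h, ⟨k, hk⟩, rfl, h1⟩
  · rintro (h | h)
    · unfold Hp at h
      rw [mem_filter] at h
      exact h.1
    · unfold Hp at h
      rw [mem_filter] at h
      have := neg_mem_Sp h.1
      rwa [neg_neg] at this

theorem not_both_Hp {k : ℕ} (h : x ∈ Hp P n k) (h' : -x ∈ Hp P n k) : False := by
  unfold Hp at h h'
  rw [mem_filter] at h h'
  obtain ⟨-, i, hi, h1⟩ := h
  obtain ⟨-, j, hj, h2⟩ := h'
  have hij : i = j := Fin.ext (hi.trans hj.symm)
  rw [hij] at h1
  rw [Pi.neg_apply] at h2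
  omega

end BU
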