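import Pool.Agent.Helper57.BU.Face

/-!
# BU-03 The boundary of a hemisphere is the equator

TO PROVE (in place).  Let `κ : Fin P` be the coordinate with index `k + 1`.  If `x ∈ Hp P n (k+1)` and `Fle y x` then `y i = 0` for
`i > k + 1`, and among the coordinates `0, ..., k + 1` of `x` exactly one is even, and it is extreme (`|x i| = 2n`).  Hence if `y` has
a nonzero coordinate with index `> k + 1` both sides are zero.  Otherwise, since `rk y = k`, exactly two of the coordinates
`0, ..., k + 1` of `y` are even, say `a < b`.  The `x` with `Fle y x`, `rk x = k + 1` are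
`Function.update y a (y a ± 1)` and `Function.update y b (y b ± 1)` (`rk_add`), and
`x = update y a (y a + s)` is in `Hp P n (k+1)` iff `|y a + s| ≤ 2n`, `|y b| = 2n` and `x κ > 0`; the same with `a`, `b` exchanged.
Case `b < κ` (then `y κ` is odd, so nonzero): if `y κ < 0` there is none.  If `y κ > 0` the number is
`[|y b| = 2n] * (2 - [|y a| = 2n]) + [|y a| = 2n] * (2 - [|y b| = 2n])`, which is even.
Case `b = κ`: the number is `[y κ = 2n] * (2 - [|y a| = 2n]) + [|y a| = 2n] * c`, `c` the number of `s = ± 1` with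
`0 < y κ + s ≤ 2n`, that is `c = 1` for `y κ = 2n`, `2` for `0 < y κ < 2n`, `1` for `y κ = 0`, `0` for `y κ < 0`.
It is odd iff `y κ = 0` and `|y a| = 2n`, which is the condition `y ∈ Sp P n k`.  (In the first case `y ∉ Sp P n k` as `y κ ≠ 0`.)
-/

set_option autoImplicit false

namespace BU

open Finset

private theorem mem_Box {P n : ℕ} {x : Fin P → ℤ} : x ∈ Box P n ↔ ∀ i, |x i| ≤ 2 * (n : ℤ) := by
  simp only [Box, Fintype.mem_piFinset, Finset.mem_Icc, abs_le]

private theorem memH {P n k : ℕ} (hk : k < P) (x : Fin P → ℤ) :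
    x ∈ Hp P n k ↔ (∀ i, |x i| ≤ 2 * (n : ℤ)) ∧ (∃ i, |x i| = 2 * (n : ℤ)) ∧
      (∀ i : Fin P, k < (i : ℕ) → x i = 0) ∧ rk x = k ∧ 0 < x ⟨k, hk⟩ := by
  simp only [Hp, Sp, Bd, mem_filter, mem_Box]
  constructor
  · rintro ⟨⟨⟨h1, h2⟩, h3, h4⟩, i, hi, h5⟩
    have : i = ⟨k, hk⟩ := Fin.ext hi
    subst this
    exact ⟨h1, h2, h3, h4, h5⟩
  · rintro ⟨h1, h2, h3, h4, h5⟩
    exact ⟨⟨⟨h1, h2⟩, h3, h4⟩, ⟨k, hk⟩, rfl, h5⟩

private theorem even_of_abs {n : ℕ} {t : ℤ} (h : |t| = 2 * (n : ℤ)) : Even t := by
  rcases abs_eq (by positivity) |>.1 h with h | h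
  · exact ⟨n, by rw [h]; ring⟩
  · exact ⟨-n, by rw [h]; ring⟩

private theorem arith1 {n u v a' b' : ℤ} (hn : 1 ≤ n) (ha : u = a' + a') (hb : v = b' + b')
    (h1 : -(2 * n) ≤ u ∧ u ≤ 2 * n) (h2 : -(2 * n) ≤ v ∧ v ≤ 2 * n)
    (hor : (u = 2 * n ∨ u = -(2 * n)) ∨ (v = 2 * n ∨ v = -(2 * n))) :
    (((if (-(2 * n) ≤ u + 1 ∧ u + 1 ≤ 2 * n) ∧ (v = 2 * n ∨ v = -(2 * n)) ∧ 0 < u + 1 then 1 else 0) +
      (if (-(2 * n) ≤ u + -1 ∧ u + -1 ≤ 2 * n) ∧ (v = 2 * n ∨ v = -(2 * n)) ∧ 0 < u + -1 then 1 else 0)) +
     ((if (-(2 * n) ≤ v + 1 ∧ v + 1 ≤ 2 * n) ∧ (u = 2 * n ∨ u = -(2 * n)) ∧ 0 < u then 1 else 0) +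
      (if (-(2 * n) ≤ v + -1 ∧ v + -1 ≤ 2 * n) ∧ (u = 2 * n ∨ u = -(2 * n)) ∧ 0 < u then 1 else 0))) % 2 =
      if u = 0 then 1 else 0 := by
  split_ifs <;> omega

private theorem arith2 {n u v t a' b' c' : ℤ} (hn : 1 ≤ n) (ha : u = a' + a') (hb : v = b' + b')
    (hc : t = 2 * c' + 1) (h1 : -(2 * n) ≤ u ∧ u ≤ 2 * n) (h2 : -(2 * n) ≤ v ∧ v ≤ 2 * n)
    (hor : (u = 2 * n ∨ u = -(2 * n)) ∨ (v = 2 * n ∨ v = -(2 * n))) :
    (((if (-(2 * n) ≤ u + 1 ∧ u + 1 ≤ 2 * n) ∧ (v = 2 * n ∨ v = -(2 * n)) ∧ 0 < t then 1 else 0) +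
      (if (-(2 * n) ≤ u + -1 ∧ u + -1 ≤ 2 * n) ∧ (v = 2 * n ∨ v = -(2 * n)) ∧ 0 < t then 1 else 0)) +
     ((if (-(2 * n) ≤ v + 1 ∧ v + 1 ≤ 2 * n) ∧ (u = 2 * n ∨ u = -(2 * n)) ∧ 0 < t then 1 else 0) +
      (if (-(2 * n) ≤ v + -1 ∧ v + -1 ≤ 2 * n) ∧ (u = 2 * n ∨ u = -(2 * n)) ∧ 0 < t then 1 else 0))) % 2 =
      if t = 0 then 1 else 0 := by
  split_ifs <;> omega

open Classical in
theorem inc {P n k : ℕ} (hn : 1 ≤ n) (hk : k + 1 < P) {y : Fin P → ℤ} (hy : y ∈ Bd P n) (hr : rk y = k) :
    ((Hp P n (k + 1)).filter fun x => Fle y x).card % 2 = if y ∈ Sp P n k then 1 else 0 := by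
  have hn' : (1 : ℤ) ≤ n := by exact_mod_cast hn
  set κ : Fin P := ⟨k + 1, hk⟩ with hκ
  have hy' := hy
  simp only [Bd, mem_filter, mem_Box] at hy'
  obtain ⟨hyB, i0, hi0⟩ := hy'
  by_cases htail : ∀ i : Fin P, k + 1 < (i : ℕ) → y i = 0
  swap
  · push Not at htail
    obtain ⟨i, hi, hyi⟩ := htail
    rw [if_neg, Finset.card_eq_zero.2]
    · rw [Finset.filter_eq_empty_iff]
      intro x hx hf
      obtain ⟨-, -, h3, -, -⟩ := (memH hk x).1 hx
      rcases hf i with h | ⟨h, -⟩
      · exact hyi (h.trans (h3 i hi))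
      · rw [h3 i hi] at h
        exact (by decide : ¬ Odd (0 : ℤ)) h
    · intro h
      simp only [Sp, mem_filter] at h
      exact hyi (h.2.1 i (by omega))
  -- the even coordinates
  set E : Finset (Fin P) := (Iic κ).filter fun i => Even (y i) with hE
  have hle : ∀ i : Fin P, i ≤ κ ↔ (i : ℕ) ≤ k + 1 := fun i => Fin.le_def
  have hEcard : E.card = 2 := by
    have h1 := Finset.card_filter_add_card_filter_not (s := Iic κ) (fun i => Even (y i))
    have h2 : (Iic κ).card = k + 2 := by rw [Fin.card_Iic]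
    have h3 : ((Iic κ).filter fun i => ¬ Even (y i)) = univ.filter fun i => Odd (y i) := by
      ext i
      simp only [mem_filter, mem_Iic, mem_univ, true_and, Int.not_even_iff_odd]
      constructor
      · exact fun h => h.2
      · intro h
        refine ⟨?_, h⟩
        rw [hle]
        by_contra hc
        rw [htail i (by omega)] at h
        exact (by decide : ¬ Odd (0 : ℤ)) h
    have h4 : (univ.filter fun i => Odd (y i)).card = k := hr
    rw [h3, h4, h2] at h1
    rw [hE]
    omega
  have hEmem : ∀ i, i ∈ E ↔ (i : ℕ) ≤ k + 1 ∧ Even (y i) := by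
    intro i
    rw [hE, mem_filter, mem_Iic, hle]
  obtain ⟨a, b, hab, hEab⟩ := Finset.card_eq_two.1 hEcard
  have ha : a ∈ E := by rw [hEab]; simp
  have hb : b ∈ E := by rw [hEab]; simp
  have hext : ∀ i, |y i| = 2 * (n : ℤ) → i = a ∨ i = b := by
    intro i hi
    have h1 : i ∈ E := by
      rw [hEmem]
      refine ⟨?_, even_of_abs hi⟩
      by_contra hc
      rw [htail i (by omega), abs_zero] at hi
      omega
    rw [hEab] at h1
    simpa using h1
  set cond : Fin P × ℤ → Prop := fun p => |y p.1 + p.2| ≤ 2 * (n : ℤ) ∧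
    (∀ i ∈ E, i ≠ p.1 → |y i| = 2 * (n : ℤ)) ∧ 0 < Function.update y p.1 (y p.1 + p.2) κ with hcond
  have key : ((Hp P n (k + 1)).filter fun x => Fle y x) =
      ((E ×ˢ ({1, -1} : Finset ℤ)).filter cond).image
        (fun p => Function.update y p.1 (y p.1 + p.2)) := by
    ext x
    simp only [mem_filter, mem_image, mem_product, Prod.exists]
    constructor
    · rintro ⟨hx, hf⟩
      obtain ⟨h1, ⟨e, he⟩, h3, h4, h5⟩ := (memH hk x).1 hx
      have h6 := rk_add hf
      rw [hr, h4] at h6
      have h7 : (univ.filter fun i => y i ≠ x i).card = 1 := by omega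
      obtain ⟨j, hj⟩ := Finset.card_eq_one.1 h7
      have hjj : y j ≠ x j := by
        have : j ∈ univ.filter fun i => y i ≠ x i := by rw [hj]; simp
        simpa using this
      have hoth : ∀ i, i ≠ j → y i = x i := by
        intro i hi
        by_contra hc
        have : i ∈ univ.filter fun i => y i ≠ x i := by simp [hc]
        rw [hj] at this
        exact hi (by simpa using this)
      obtain ⟨hodd, habs⟩ := (hf j).resolve_left hjj
      have hjk : (j : ℕ) ≤ k + 1 := by
        by_contra hc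
        rw [h3 j (by omega)] at hodd
        exact (by decide : ¬ Odd (0 : ℤ)) hodd
      have hs : x j - y j = 1 ∨ x j - y j = -1 := by
        rcases abs_eq (by norm_num) |>.1 habs with h | h
        · right; omega
        · left; omega
      have hjE : j ∈ E := by
        rw [hEmem]
        refine ⟨hjk, ?_⟩
        rcases hs with h | h
        · have : y j = x j - 1 := by omega
          rw [this]; exact hodd.sub_odd odd_one
        · have : y j = x j + 1 := by omega
          rw [this]; exact hodd.add_odd odd_one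
      have hupd : Function.update y j (y j + (x j - y j)) = x := by
        funext i
        by_cases hi : i = j
        · subst hi; simp
        · rw [Function.update_of_ne hi]; exact hoth i hi
      refine ⟨j, x j - y j, ⟨⟨hjE, by rcases hs with h | h <;> simp [h]⟩, ?_⟩, hupd⟩
      refine ⟨?_, ?_, ?_⟩
      · show |y j + (x j - y j)| ≤ 2 * (n : ℤ)
        have : y j + (x j - y j) = x j := by ring
        rw [this]; exact h1 j
      · intro i hi hij
        have hij' : i ≠ j := hij
        -- the extreme coordinate of x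
        have hex : e ≠ j := by
          rintro rfl
          exact (Int.not_even_iff_odd.2 hodd) (even_of_abs he)
        have hey : |y e| = 2 * (n : ℤ) := by rw [hoth e hex]; exact he
        have h8 : e ∈ E := by
          rcases hext e hey with h | h <;> rw [h] <;> assumption
        have h9 : e = i := by
          by_contra hc
          have h10 : ({e, i, j} : Finset (Fin P)) ⊆ E := by
            intro t ht
            simp only [mem_insert, mem_singleton] at ht
            rcases ht with rfl | rfl | rfl <;> assumption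
          have h11 := Finset.card_le_card h10
          rw [Finset.card_insert_of_notMem (by simp [hc, hex]), Finset.card_pair hij', hEcard] at h11
          omega
        rw [← h9]; exact hey
      · show 0 < Function.update y j (y j + (x j - y j)) κ
        rw [hupd]; exact h5
    · rintro ⟨j, s, ⟨⟨hjE, hs⟩, hc1, hc2, hc3⟩, rfl⟩
      have hs' : s = 1 ∨ s = -1 := by simpa using hs
      obtain ⟨hjk, hev⟩ := (hEmem j).1 hjE
      have hodd : Odd (y j + s) := by
        rcases hs' with rfl | rfl
        · exact hev.add_one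
        · exact hev.add_odd (by decide)
      have hf : Fle y (Function.update y j (y j + s)) := by
        intro i
        by_cases hi : i = j
        · subst hi
          right
          rw [Function.update_self]
          refine ⟨hodd, ?_⟩
          rcases hs' with rfl | rfl
          · simp
          · simp
        · left
          rw [Function.update_of_ne hi]
      have hD : (univ.filter fun i => y i ≠ Function.update y j (y j + s) i) = {j} := by
        ext i
        simp only [mem_filter, mem_univ, true_and, mem_singleton]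
        constructor
        · intro h
          by_contra hi
          rw [Function.update_of_ne hi] at h
          exact h rfl
        · rintro rfl
          rw [Function.update_self]
          rcases hs' with rfl | rfl <;> omega
      have hrk := rk_add hf
      rw [hD, hr, Finset.card_singleton] at hrk
      refine ⟨(memH hk _).2 ⟨?_, ?_, ?_, hrk.symm, hc3⟩, hf⟩
      · intro i
        by_cases hi : i = j
        · subst hi; rw [Function.update_self]; exact hc1
        · rw [Function.update_of_ne hi]; exact hyB i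
      · obtain ⟨j', hj', hjj'⟩ : ∃ j' ∈ E, j' ≠ j := by
          by_cases h : a = j
          · exact ⟨b, hb, fun h' => hab (h.trans h'.symm)⟩
          · exact ⟨a, ha, h⟩
        refine ⟨j', ?_⟩
        rw [Function.update_of_ne hjj']
        exact hc2 j' hj' hjj'
      · intro i hi
        have hij : i ≠ j := by rintro rfl; omega
        rw [Function.update_of_ne hij]
        exact htail i hi
  rw [key, Finset.card_image_of_injOn]
  swap
  · rintro ⟨j, s⟩ hp ⟨j', s'⟩ hp' heq
    simp only [coe_filter, mem_product, Set.mem_ofPred_eq] at hp hp'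
    have hs : s = 1 ∨ s = -1 := by simpa using hp.1.2
    have hs' : s' = 1 ∨ s' = -1 := by simpa using hp'.1.2
    have heq' : Function.update y j (y j + s) = Function.update y j' (y j' + s') := heq
    have h1 : j = j' := by
      by_contra hc
      have := congrFun heq' j
      rw [Function.update_self, Function.update_of_ne hc] at this
      omega
    subst h1
    have := congrFun heq' j
    rw [Function.update_self, Function.update_self] at this
    rw [Prod.mk.injEq]
    exact ⟨rfl, by omega⟩
  rw [Finset.card_filter, Finset.sum_product, hEab, Finset.sum_pair hab, Finset.sum_pair (by norm_num),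
    Finset.sum_pair (by norm_num)]
  have hSp : y ∈ Sp P n k ↔ y κ = 0 := by
    simp only [Sp, mem_filter]
    constructor
    · exact fun h => h.2.1 κ (by simp [hκ])
    · intro h
      refine ⟨hy, fun i hi => ?_, hr⟩
      by_cases h1 : k + 1 < (i : ℕ)
      · exact htail i h1
      · have : i = κ := Fin.ext (by simp only [hκ]; omega)
        rw [this]; exact h
  simp only [hSp]
  have hca : ∀ s : ℤ, (|y a + s| ≤ 2 * (n : ℤ) ∧ (∀ i ∈ ({a, b} : Finset (Fin P)), i ≠ a → |y i| = 2 * (n : ℤ)) ∧
      0 < Function.update y a (y a + s) κ) ↔ ((-(2 * (n : ℤ)) ≤ y a + s ∧ y a + s ≤ 2 * (n : ℤ)) ∧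
        (y b = 2 * (n : ℤ) ∨ y b = -(2 * (n : ℤ))) ∧ 0 < (if κ = a then y a + s else y κ)) := by
    intro s
    rw [← abs_eq (by positivity : (0 : ℤ) ≤ 2 * (n : ℤ)), ← abs_le, Function.update_apply]
    simp [hab.symm]
  have hcb : ∀ s : ℤ, (|y b + s| ≤ 2 * (n : ℤ) ∧ (∀ i ∈ ({a, b} : Finset (Fin P)), i ≠ b → |y i| = 2 * (n : ℤ)) ∧
      0 < Function.update y b (y b + s) κ) ↔ ((-(2 * (n : ℤ)) ≤ y b + s ∧ y b + s ≤ 2 * (n : ℤ)) ∧
        (y a = 2 * (n : ℤ) ∨ y a = -(2 * (n : ℤ))) ∧ 0 < (if κ = b then y b + s else y κ)) := by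
    intro s
    rw [← abs_eq (by positivity : (0 : ℤ) ≤ 2 * (n : ℤ)), ← abs_le, Function.update_apply]
    simp [hab]
  simp only [hca, hcb]
  obtain ⟨a', ha'⟩ := ((hEmem a).1 ha).2
  obtain ⟨b', hb'⟩ := ((hEmem b).1 hb).2
  have hyBa := abs_le.1 (hyB a)
  have hyBb := abs_le.1 (hyB b)
  have hyBκ := abs_le.1 (hyB κ)
  have hor : (y a = 2 * (n : ℤ) ∨ y a = -(2 * (n : ℤ))) ∨ (y b = 2 * (n : ℤ) ∨ y b = -(2 * (n : ℤ))) := by
    rcases hext i0 hi0 with h | h
    · left; rw [h] at hi0; exact (abs_eq (by positivity)).1 hi0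
    · right; rw [h] at hi0; exact (abs_eq (by positivity)).1 hi0
  by_cases hκa : κ = a
  · have hκb : κ ≠ b := fun h => hab (hκa.symm.trans h)
    simp only [if_pos hκa, if_neg hκb]
    rw [hκa]
    exact arith1 hn' ha' hb' hyBa hyBb hor
  · by_cases hκb : κ = b
    · simp only [if_neg hκa, if_pos hκb]
      rw [hκb, add_comm]
      exact arith1 hn' hb' ha' hyBb hyBa hor.symm
    · simp only [if_neg hκa, if_neg hκb]
      have hκodd : Odd (y κ) := by
        rw [← Int.not_even_iff_odd]
        intro hev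
        have : κ ∈ E := by rw [hEmem]; exact ⟨by simp [hκ], hev⟩
        rw [hEab] at this
        simp only [mem_insert, mem_singleton] at this
        tauto
      obtain ⟨c', hc'⟩ := hκodd
      exact arith2 hn' ha' hb' hc' hyBa hyBb hor

end BU
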