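import Pool.Agent.Helper57.BU.Alt
import Pool.Agent.Helper57.BU.Inc

/-!
# BU-04 The parity of the number of alternating flags does not depend on the dimension

TO PROVE (in place).  Let `N` be the number of pairs `(s, i)`, `s ∈ Fl P n (k+1)`, `i : Fin (k+2)`, such that
`Alt 1 (fun j => lam (s (i.succAbove j)))`.

* Counting by `s`: the labels `l = lam ∘ s` satisfy `l i ≠ - l j` for all `i, j` (for `i ≤ j`, `Fle (s i) (s j)` by transitivity and
  reflexivity; `s i, s j ∈ Bd`).  By `alt_card`, `N % 2 = T P n (k+1) lam % 2`.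
* Counting by `i`: for `i` not the last index the number of `s` is even: for `0 < i < k + 1` the map which replaces `s i` by
  `s (i+1) + s (i-1) - s i` and for `i = 0` the map which replaces `s 0` by `s 1 + s 1 - s 0` is an involution without
  fixed points of the set of these `s` (`diamond`, `diamond_bot`, `bd_of_fle`; the facet omitting `i`, the last face and the
  other conditions do not change); `Finset.card_involution` or `Finset.even_card_of_involution`, or `Finset.sum_involution` in
  `ZMod 2`.
* For `i` the last index the facet is `s' = Fin.init s`, a flag with last face `y = s' (last k)`, and the number of `s` with this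
  `s'` is the number of `x ∈ Hp P n (k+1)` with `Fle y x` (`Fin.snoc`), which by `inc` is odd iff `y ∈ Sp P n k`.  So
  `N` has the parity of the number of full flags `s'` (ranks `0, ..., k`, all faces in `Bd`) with `s' (last k) ∈ Sp P n k`
  and `Alt 1 (lam ∘ s')`.  By `mem_Sp_iff`, `not_both_Hp` this is the number of those with last face in `Hp P n k` plus the number of those
  with last face in `- Hp P n k`; the latter, by `s' ↦ - s'` (`Fle.neg`, `rk_neg`, `neg_mem_Bd`) and `hodd`, `Alt.neg_iff`, is
  the number of `s' ∈ Fl P n k` with `Alt (-1) (lam ∘ s')`.  Since `Alt 1` and `Alt (-1)` exclude each other (`Alt.not_both`),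
  the sum is `T P n k lam`.
-/

set_option autoImplicit false

namespace BU

open Finset

open Classical in
theorem mem_Fl {P n k : ℕ} {s : Fin (k + 1) → Fin P → ℤ} :
    s ∈ Fl P n k ↔ (∀ i, s i ∈ Bd P n) ∧ (∀ i, rk (s i) = (i : ℕ)) ∧
      (∀ i : Fin k, Fle (s i.castSucc) (s i.succ)) ∧ s (Fin.last k) ∈ Hp P n k := by
  simp only [Fl, mem_filter, Fintype.mem_piFinset]

theorem Hp_Bd {P n k : ℕ} {x : Fin P → ℤ} (h : x ∈ Hp P n k) : x ∈ Bd P n ∧ rk x = k := by
  have h1 := (mem_filter.1 h).1
  have h2 := mem_filter.1 h1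
  exact ⟨h2.1, h2.2.2⟩

theorem update_mem {P n k : ℕ} {s : Fin (k + 1 + 1) → Fin P → ℤ} (hs : s ∈ Fl P n (k + 1))
    (i : Fin (k + 1)) (w : Fin P → ℤ) (hw : rk w = (i : ℕ)) (hup : Fle w (s i.succ))
    (hlow : ∀ j : Fin (k + 1), j.succ = i.castSucc → Fle (s j.castSucc) w) :
    Function.update s i.castSucc w ∈ Fl P n (k + 1) := by
  rw [mem_Fl] at hs ⊢
  obtain ⟨h1, h2, h3, h4⟩ := hs
  refine ⟨?_, ?_, ?_, ?_⟩
  · intro j
    by_cases hj : j = i.castSucc
    · subst hj
      rw [Function.update_self]
      exact bd_of_fle (h1 i.succ) hup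
    · rw [Function.update_of_ne hj]
      exact h1 j
  · intro j
    by_cases hj : j = i.castSucc
    · subst hj
      rw [Function.update_self, hw]
      rfl
    · rw [Function.update_of_ne hj]
      exact h2 j
  · intro j
    by_cases hj : j.castSucc = i.castSucc
    · have hji : j = i := Fin.castSucc_injective _ hj
      subst hji
      have hne : j.succ ≠ j.castSucc := (Fin.castSucc_lt_succ).ne'
      rw [Function.update_self, Function.update_of_ne hne]
      exact hup
    · rw [Function.update_of_ne hj]
      by_cases hj2 : j.succ = i.castSucc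
      · rw [hj2, Function.update_self]
        exact hlow j hj2
      · rw [Function.update_of_ne hj2]
        exact h3 j
  · have hne : Fin.last (k + 1) ≠ i.castSucc := (Fin.castSucc_lt_last i).ne'
    rw [Function.update_of_ne hne]
    exact h4

theorem facet_even {P n k : ℕ} {lam : (Fin P → ℤ) → ℤ} (i : Fin (k + 1)) [DecidablePred fun s : Fin (k + 1 + 1) → Fin P → ℤ =>
      Alt 1 (fun j => lam (s (i.castSucc.succAbove j)))] :
    (((Fl P n (k + 1)).filter fun s => Alt 1 (fun j => lam (s (i.castSucc.succAbove j)))).card : ZMod 2) = 0 := by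
  classical
  have hne : i.succ ≠ i.castSucc := (Fin.castSucc_lt_succ).ne'
  -- the lower neighbour
  obtain ⟨c, hc, hc0, hcs⟩ : ∃ c : Fin (k + 1 + 1), c ≠ i.castSucc ∧
      ((i : ℕ) = 0 → c = i.succ) ∧ (∀ j : Fin (k + 1), j.succ = i.castSucc → c = j.castSucc) := by
    rcases Nat.eq_zero_or_pos (i : ℕ) with h0 | h0
    · refine ⟨i.succ, hne, fun _ => rfl, ?_⟩
      intro j hj
      have := congrArg Fin.val hj
      simp at this
      omega
    · refine ⟨⟨(i : ℕ) - 1, by omega⟩, ?_, ?_, ?_⟩
      · intro h
        have := congrArg Fin.val h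
        simp at this
        omega
      · intro h
        omega
      · intro j hj
        have := congrArg Fin.val hj
        simp at this
        apply Fin.ext
        simp
        omega
  let φ : (Fin (k + 1 + 1) → Fin P → ℤ) → (Fin (k + 1 + 1) → Fin P → ℤ) := fun s =>
    Function.update s i.castSucc (s i.succ + s c - s i.castSucc)
  have key : ∀ s ∈ Fl P n (k + 1), φ s ∈ Fl P n (k + 1) ∧ s i.succ + s c - s i.castSucc ≠ s i.castSucc := by
    intro s hs
    have hs' := hs
    rw [mem_Fl] at hs'
    obtain ⟨h1, h2, h3, h4⟩ := hs'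
    have hr1 : rk (s i.castSucc) = (i : ℕ) := by rw [h2]; rfl
    have hr2 : rk (s i.succ) = rk (s i.castSucc) + 1 := by rw [h2, hr1]; rfl
    by_cases h0 : (i : ℕ) = 0
    · have hcc := hc0 h0
      obtain ⟨d1, d2, d3⟩ := diamond_bot (h3 i) hr2
      refine ⟨?_, by rw [hcc]; exact d3⟩
      apply update_mem hs
      · rw [hcc, d2, hr1]
      · rw [hcc]; exact d1
      · intro j hj
        have := congrArg Fin.val hj
        simp at this
        omega
    · let j : Fin (k + 1) := ⟨(i : ℕ) - 1, by omega⟩
      have hj : j.succ = i.castSucc := by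
        apply Fin.ext
        simp [j]
        omega
      have hcc := hcs j hj
      have hf : Fle (s c) (s i.castSucc) := by
        rw [hcc, ← hj]
        exact h3 j
      have hr3 : rk (s i.castSucc) = rk (s c) + 1 := by
        rw [hr1, hcc, h2]
        simp [j]
        omega
      obtain ⟨d1, d2, d3, d4⟩ := diamond hf (h3 i) hr3 hr2
      refine ⟨?_, d4⟩
      apply update_mem hs
      · rw [d3, hr1]
      · exact d2
      · intro j' hj'
        rw [← hcs j' hj']
        exact d1
  have hφφ : ∀ s, φ (φ s) = s := by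
    intro s
    change Function.update (Function.update s i.castSucc (s i.succ + s c - s i.castSucc)) i.castSucc
      ((Function.update s i.castSucc (s i.succ + s c - s i.castSucc)) i.succ +
       (Function.update s i.castSucc (s i.succ + s c - s i.castSucc)) c -
       (Function.update s i.castSucc (s i.succ + s c - s i.castSucc)) i.castSucc) = s
    rw [Function.update_of_ne hne, Function.update_of_ne hc, Function.update_self,
      Function.update_idem]
    have : s i.succ + s c - (s i.succ + s c - s i.castSucc) = s i.castSucc := by abel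
    rw [this, Function.update_eq_self]
  have hfac : ∀ s, (fun j => lam (φ s (i.castSucc.succAbove j))) =
      (fun j => lam (s (i.castSucc.succAbove j))) := by
    intro s
    funext j
    change lam (Function.update s i.castSucc _ (i.castSucc.succAbove j)) = _
    rw [Function.update_of_ne (Fin.succAbove_ne _ _)]
  rw [Finset.card_eq_sum_ones]
  push_cast
  refine Finset.sum_involution (fun s _ => φ s) ?_ ?_ ?_ ?_
  · intro s _
    decide
  · intro s hs _ h
    have h1 := (key s (mem_filter.1 hs).1).2
    apply h1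
    have h2 := congrFun h i.castSucc
    change Function.update s i.castSucc _ i.castSucc = _ at h2
    rwa [Function.update_self] at h2
  · intro s hs
    rw [mem_filter] at hs ⊢
    exact ⟨(key s hs.1).1, by rw [hfac]; exact hs.2⟩
  · intro s _
    exact hφφ s

open Classical in
/-- flags without condition on the last face, with alternating labels -/
noncomputable def FF (P n k : ℕ) (lam : (Fin P → ℤ) → ℤ) : Finset (Fin (k + 1) → Fin P → ℤ) :=
  (Fintype.piFinset fun _ => Bd P n).filter fun s =>
    (∀ i, rk (s i) = (i : ℕ)) ∧ (∀ i : Fin k, Fle (s i.castSucc) (s i.succ)) ∧ Alt 1 (lam ∘ s)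

theorem mem_FF {P n k : ℕ} {lam : (Fin P → ℤ) → ℤ} {s : Fin (k + 1) → Fin P → ℤ} :
    s ∈ FF P n k lam ↔ (∀ i, s i ∈ Bd P n) ∧ (∀ i, rk (s i) = (i : ℕ)) ∧
      (∀ i : Fin k, Fle (s i.castSucc) (s i.succ)) ∧ Alt 1 (lam ∘ s) := by
  simp only [FF, mem_filter, Fintype.mem_piFinset]

theorem facet_last {P n k : ℕ} (hn : 1 ≤ n) (hk : k + 1 < P) {lam : (Fin P → ℤ) → ℤ}
    [DecidablePred fun s : Fin (k + 1 + 1) → Fin P → ℤ =>
      Alt 1 (fun j => lam (s ((Fin.last (k + 1)).succAbove j)))]
    [DecidablePred fun s : Fin (k + 1) → Fin P → ℤ => s (Fin.last k) ∈ Sp P n k] :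
    (((Fl P n (k + 1)).filter fun s =>
      Alt 1 (fun j => lam (s ((Fin.last (k + 1)).succAbove j)))).card : ZMod 2) =
    (((FF P n k lam).filter fun s => s (Fin.last k) ∈ Sp P n k).card : ZMod 2) := by
  classical
  have hmaps : ∀ s ∈ (Fl P n (k + 1)).filter (fun s =>
      Alt 1 (fun j => lam (s ((Fin.last (k + 1)).succAbove j)))),
      (fun j : Fin (k + 1) => s j.castSucc) ∈ FF P n k lam := by
    intro s hs
    rw [mem_filter, mem_Fl] at hs
    obtain ⟨⟨h1, h2, h3, _⟩, h5⟩ := hs
    rw [mem_FF]
    refine ⟨fun j => h1 _, fun j => by rw [h2]; rfl, fun j => ?_, ?_⟩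
    · exact h3 j.castSucc
    · simpa [Fin.succAbove_last, Function.comp_def] using h5
  have hmaps' : Set.MapsTo (fun (s : Fin (k + 1 + 1) → Fin P → ℤ) (j : Fin (k + 1)) => s j.castSucc)
      (↑((Fl P n (k + 1)).filter (fun s =>
        Alt 1 (fun j => lam (s ((Fin.last (k + 1)).succAbove j))))) : Set (Fin (k + 1 + 1) → Fin P → ℤ))
      (↑(FF P n k lam) : Set (Fin (k + 1) → Fin P → ℤ)) := by
    intro s hs
    exact hmaps s hs
  rw [Finset.card_eq_sum_card_fiberwise hmaps']
  rw [Finset.card_filter]
  push_cast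
  refine Finset.sum_congr rfl fun s' hs' => ?_
  have hs'' := hs'
  rw [mem_FF] at hs''
  obtain ⟨h1, h2, h3, h4⟩ := hs''
  have hcard : (((Fl P n (k + 1)).filter (fun s =>
      Alt 1 (fun j => lam (s ((Fin.last (k + 1)).succAbove j))))).filter
        (fun s => (fun j : Fin (k + 1) => s j.castSucc) = s')).card =
      ((Hp P n (k + 1)).filter fun x => Fle (s' (Fin.last k)) x).card := by
    refine Finset.card_bij' (fun s _ => s (Fin.last (k + 1)))
      (fun x _ => (Fin.snoc s' x : Fin (k + 1 + 1) → Fin P → ℤ)) ?_ ?_ ?_ ?_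
    · intro s hs
      rw [mem_filter, mem_filter, mem_Fl] at hs
      obtain ⟨⟨⟨_, _, g3, g4⟩, _⟩, g6⟩ := hs
      rw [mem_filter]
      refine ⟨g4, ?_⟩
      have := g3 (Fin.last k)
      rw [← g6]
      exact this
    · intro x hx
      rw [mem_filter] at hx
      rw [mem_filter, mem_filter, mem_Fl]
      have e1 : ∀ j : Fin (k + 1), (Fin.snoc s' x : Fin (k + 1 + 1) → Fin P → ℤ) j.castSucc = s' j := by
        intro j
        exact Fin.snoc_castSucc (α := fun _ => Fin P → ℤ) x s' j
      have e2 : (Fin.snoc s' x : Fin (k + 1 + 1) → Fin P → ℤ) (Fin.last (k + 1)) = x :=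
        Fin.snoc_last (α := fun _ => Fin P → ℤ) x s'
      refine ⟨⟨⟨?_, ?_, ?_, ?_⟩, ?_⟩, ?_⟩
      · intro j
        refine Fin.lastCases ?_ (fun j => ?_) j
        · rw [e2]
          exact (Hp_Bd hx.1).1
        · rw [e1]
          exact h1 j
      · intro j
        refine Fin.lastCases ?_ (fun j => ?_) j
        · rw [e2, (Hp_Bd hx.1).2]
          rfl
        · rw [e1, h2]
          rfl
      · intro j
        rw [e1]
        refine Fin.lastCases ?_ (fun j => ?_) j
        · rw [Fin.succ_last, e2]
          exact hx.2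
        · rw [Fin.succ_castSucc, e1]
          exact h3 j
      · rw [e2]
        exact hx.1
      · have : (fun j => lam ((Fin.snoc s' x : Fin (k + 1 + 1) → Fin P → ℤ)
            ((Fin.last (k + 1)).succAbove j))) = lam ∘ s' := by
          funext j
          rw [Fin.succAbove_last, e1]
          rfl
        rw [this]
        exact h4
      · funext j
        exact e1 j
    · intro s hs
      rw [mem_filter] at hs
      have g6 := hs.2
      funext j
      refine Fin.lastCases ?_ (fun j => ?_) j
      · exact Fin.snoc_last (α := fun _ => Fin P → ℤ) _ s'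
      · rw [← g6]
        exact Fin.snoc_castSucc (α := fun _ => Fin P → ℤ) _ _ j
    · intro x _
      exact Fin.snoc_last (α := fun _ => Fin P → ℤ) x s'
  rw [hcard]
  have hinc := inc (n := n) hn hk (h1 (Fin.last k)) (by rw [h2]; rfl)
  have h5 : ((((Hp P n (k + 1)).filter fun x => Fle (s' (Fin.last k)) x).card : ℕ) : ZMod 2) =
      (((if s' (Fin.last k) ∈ Sp P n k then 1 else 0 : ℕ)) : ZMod 2) := by
    rw [ZMod.natCast_eq_natCast_iff']
    have h6 : ((Hp P n (k + 1)).filter fun x => Fle (s' (Fin.last k)) x).card % 2 =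
      if s' (Fin.last k) ∈ Sp P n k then 1 else 0 := by
      convert hinc using 3
    rw [h6]
    split_ifs <;> rfl
  rw [h5]
  split_ifs <;> simp

theorem Sp_split {P n k : ℕ} (hn : 1 ≤ n) (hk : k < P) {lam : (Fin P → ℤ) → ℤ}
    (hodd : ∀ x ∈ Bd P n, lam (-x) = -lam x)
    [DecidablePred fun s : Fin (k + 1) → Fin P → ℤ => s (Fin.last k) ∈ Sp P n k] :
    ((FF P n k lam).filter fun s => s (Fin.last k) ∈ Sp P n k).card = T P n k lam := by
  classical
  have e0 : ((FF P n k lam).filter fun s => s (Fin.last k) ∈ Sp P n k) =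
      ((FF P n k lam).filter fun s => s (Fin.last k) ∈ Hp P n k) ∪
      ((FF P n k lam).filter fun s => -s (Fin.last k) ∈ Hp P n k) := by
    rw [← Finset.filter_or]
    apply Finset.filter_congr
    intro s _
    exact mem_Sp_iff hn hk
  rw [e0, Finset.card_union_of_disjoint]
  · have e1 : ((FF P n k lam).filter fun s => s (Fin.last k) ∈ Hp P n k) =
        ((Fl P n k).filter fun s => Alt 1 (lam ∘ s)) := by
      ext s
      rw [mem_filter, mem_filter, mem_FF, mem_Fl]
      tauto
    have e2 : ((FF P n k lam).filter fun s => -s (Fin.last k) ∈ Hp P n k).card =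
        ((Fl P n k).filter fun s => Alt (-1) (lam ∘ s)).card := by
      have hneg : ∀ s : Fin (k + 1) → Fin P → ℤ, (∀ i, s i ∈ Bd P n) →
          (lam ∘ (fun j => -s j)) = fun j => -((lam ∘ s) j) := by
        intro s hs
        funext j
        exact hodd _ (hs j)
      refine Finset.card_bij' (fun s _ => fun j => -s j) (fun s _ => fun j => -s j) ?_ ?_ ?_ ?_
      · intro s hs
        rw [mem_filter, mem_FF] at hs
        obtain ⟨⟨h1, h2, h3, h4⟩, h5⟩ := hs
        rw [mem_filter, mem_Fl]
        refine ⟨⟨fun j => neg_mem_Bd (h1 j), fun j => by rw [rk_neg, h2], fun j => (h3 j).neg, h5⟩, ?_⟩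
        rw [hneg s h1, Alt.neg_iff]
        simpa using h4
      · intro s hs
        rw [mem_filter, mem_Fl] at hs
        obtain ⟨⟨h1, h2, h3, h4⟩, h5⟩ := hs
        rw [mem_filter, mem_FF]
        refine ⟨⟨fun j => neg_mem_Bd (h1 j), fun j => by rw [rk_neg, h2], fun j => (h3 j).neg, ?_⟩, ?_⟩
        · rw [hneg s h1, Alt.neg_iff]
          exact h5
        · simpa using h4
      · intro s _
        funext j
        simp
      · intro s _
        funext j
        simp
    rw [e1, e2, T, ← Finset.card_union_of_disjoint, ← Finset.filter_or]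
    rw [Finset.disjoint_filter]
    intro s _ h h'
    exact h.not_both h'
  · rw [Finset.disjoint_filter]
    intro s _ h h'
    exact not_both_Hp h h'

theorem Fle_chain {P k : ℕ} {s : Fin (k + 1) → Fin P → ℤ}
    (h : ∀ i : Fin k, Fle (s i.castSucc) (s i.succ)) : ∀ j : ℕ, ∀ i : ℕ, ∀ hi : i ≤ j, ∀ hj : j < k + 1,
      Fle (s ⟨i, lt_of_le_of_lt hi hj⟩) (s ⟨j, hj⟩) := by
  intro j
  induction j with
  | zero =>
    intro i hi hj
    have : i = 0 := by omega
    subst this
    exact Fle.refl _
  | succ j ih =>
    intro i hi hj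
    rcases Nat.lt_or_ge j i with h1 | h1
    · have : i = j + 1 := by omega
      subst this
      exact Fle.refl _
    · have h2 := ih i h1 (by omega)
      exact h2.trans (h ⟨j, by omega⟩)

theorem step {P n k : ℕ} (hn : 1 ≤ n) (hk : k + 1 < P) {lam : (Fin P → ℤ) → ℤ}
    (hodd : ∀ x ∈ Bd P n, lam (-x) = -lam x)
    (hnc : ∀ x ∈ Bd P n, ∀ y ∈ Bd P n, Fle y x → lam y ≠ -lam x) :
    T P n (k + 1) lam % 2 = T P n k lam % 2 := by
  classical
  rw [← ZMod.natCast_eq_natCast_iff']
  -- counting by flags
  have hA : ((T P n (k + 1) lam : ℕ) : ZMod 2) = ∑ s ∈ Fl P n (k + 1),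
      ∑ i : Fin (k + 1 + 1), (if Alt 1 (fun j => lam (s (i.succAbove j))) then (1 : ZMod 2) else 0) := by
    rw [T, Finset.card_filter]
    push_cast
    refine Finset.sum_congr rfl fun s hs => ?_
    rw [mem_Fl] at hs
    obtain ⟨h1, _, h3, _⟩ := hs
    have hl : ∀ i j, (lam ∘ s) i ≠ -(lam ∘ s) j := by
      have hle : ∀ i j : Fin (k + 1 + 1), i ≤ j → lam (s i) ≠ -lam (s j) := by
        intro i j hij
        exact hnc _ (h1 j) _ (h1 i) (Fle_chain h3 j i hij j.2)
      intro i j
      rcases le_total i j with hij | hij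
      · exact hle i j hij
      · intro heq
        apply hle j i hij
        change lam (s i) = -lam (s j) at heq
        rw [heq, neg_neg]
    have hc := alt_card (lam ∘ s) hl
    have h5 : (((univ.filter fun i : Fin (k + 1 + 1) => Alt 1 (fun j => (lam ∘ s) (i.succAbove j))).card : ℕ) :
        ZMod 2) = ((if Alt 1 (lam ∘ s) ∨ Alt (-1) (lam ∘ s) then 1 else 0 : ℕ) : ZMod 2) := by
      rw [ZMod.natCast_eq_natCast_iff', hc]
      split_ifs <;> rfl
    rw [Finset.card_filter] at h5
    push_cast at h5
    exact h5.symm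
  rw [hA, Finset.sum_comm, Fin.sum_univ_castSucc]
  have hB : ∀ i : Fin (k + 1), ∑ s ∈ Fl P n (k + 1),
      (if Alt 1 (fun j => lam (s (i.castSucc.succAbove j))) then (1 : ZMod 2) else 0) = 0 := by
    intro i
    have := facet_even (P := P) (n := n) (lam := lam) i
    rw [Finset.card_filter] at this
    push_cast at this
    exact this
  rw [Finset.sum_eq_zero (fun i _ => hB i), zero_add]
  have hC := facet_last (P := P) (n := n) hn hk (lam := lam)
  rw [Sp_split hn (by omega) hodd, Finset.card_filter] at hC
  push_cast at hC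
  exact hC

end BU
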