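import Pool.Agent.Helper57.BU.Step

/-!
# BU-05 Tucker's lemma for the boundary of the cube

TO PROVE (in place).  Suppose there are no such `x`, `y`: this is the hypothesis `hnc` of `step`.
`T P n 0 lam = 1`: the only element of `Fl P n 0` is the flag with the single face `(2n, 0, ..., 0)` (`x ∈ Hp P n 0`: all coordinates
of index `> 0` vanish, one has absolute value `2n ≥ 2`, so it is the coordinate `0`, which is positive), and it is alternating
(`alt_one`, the label is not zero).  By `step` and induction, `T P n (P - 1) lam` is odd, so there is an alternating flag with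
`P` labels of absolute value at most `P - 1`, contradiction to `Alt.card_le`.
-/

set_option autoImplicit false

namespace BU

open Finset

private def top0 (P n : ℕ) : Fin P → ℤ := fun i => if (i : ℕ) = 0 then 2 * (n : ℤ) else 0

private theorem top0_mem {P n : ℕ} (hP : 1 ≤ P) (hn : 1 ≤ n) : top0 P n ∈ Hp P n 0 := by
  have hnz : (1 : ℤ) ≤ n := by exact_mod_cast hn
  have hbd : top0 P n ∈ Bd P n := by
    unfold Bd Box
    rw [mem_filter, Fintype.mem_piFinset]
    refine ⟨fun i => ?_, ⟨0, hP⟩, ?_⟩
    · rw [mem_Icc]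
      unfold top0
      split_ifs <;> constructor <;> linarith
    · unfold top0
      simp
  unfold Hp Sp
  rw [mem_filter, mem_filter]
  refine ⟨⟨hbd, fun i hi => ?_, ?_⟩, ⟨0, hP⟩, rfl, ?_⟩
  · unfold top0
    rw [if_neg (by omega)]
  · unfold rk
    rw [card_eq_zero, filter_eq_empty_iff]
    intro i _
    unfold top0
    split_ifs
    · exact Int.not_odd_iff_even.2 (even_two_mul _)
    · exact Int.not_odd_iff_even.2 (by decide)
  · unfold top0
    simp only [if_true]
    linarith

private theorem eq_top0 {P n : ℕ} (hn : 1 ≤ n) {x : Fin P → ℤ} (hx : x ∈ Hp P n 0) :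
    x = top0 P n := by
  have hnz : (1 : ℤ) ≤ n := by exact_mod_cast hn
  unfold Hp Sp Bd at hx
  simp only [mem_filter] at hx
  obtain ⟨⟨⟨_, i, hi⟩, h0, _⟩, j, hj, hpos⟩ := hx
  have hi0 : (i : ℕ) = 0 := by
    by_contra hne
    have := h0 i (by omega)
    rw [this, abs_zero] at hi
    linarith
  have hij : i = j := Fin.ext (by omega)
  subst hij
  rw [abs_of_pos hpos] at hi
  funext k
  unfold top0
  split_ifs with hk
  · have : k = i := Fin.ext (by omega)
    rw [this, hi]
  · exact h0 k (by omega)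

private theorem T_zero {P n : ℕ} (hP : 1 ≤ P) (hn : 1 ≤ n) {lam : (Fin P → ℤ) → ℤ}
    (h0 : ∀ x ∈ Bd P n, lam x ≠ 0) : T P n 0 lam = 1 := by
  classical
  have hmem := top0_mem hP hn
  have hbd : top0 P n ∈ Bd P n := by
    unfold Hp Sp at hmem
    simp only [mem_filter] at hmem
    exact hmem.1.1
  have hrk : rk (top0 P n) = 0 := by
    unfold Hp Sp at hmem
    simp only [mem_filter] at hmem
    exact hmem.1.2.2
  unfold T
  rw [card_eq_one]
  refine ⟨fun _ => top0 P n, ?_⟩
  ext s
  rw [mem_filter, mem_singleton]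
  constructor
  · rintro ⟨hs, _⟩
    unfold Fl at hs
    rw [mem_filter] at hs
    have h1 := eq_top0 hn hs.2.2.2
    funext i
    have hi : i = Fin.last 0 := Fin.ext (by have := i.isLt; simp only [Fin.val_last]; omega)
    rw [hi]
    exact h1
  · rintro rfl
    refine ⟨?_, alt_one ?_⟩
    · unfold Fl
      rw [mem_filter, Fintype.mem_piFinset]
      refine ⟨fun _ => hbd, fun i => ?_, fun i => i.elim0, hmem⟩
      rw [hrk]
      have := i.isLt
      omega
    · exact h0 _ hbd

theorem tucker {P n : ℕ} (hP : 1 ≤ P) (hn : 1 ≤ n) {lam : (Fin P → ℤ) → ℤ}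
    (hodd : ∀ x ∈ Bd P n, lam (-x) = -lam x) (h0 : ∀ x ∈ Bd P n, lam x ≠ 0)
    (hb : ∀ x ∈ Bd P n, |lam x| ≤ ((P - 1 : ℕ) : ℤ)) :
    ∃ x ∈ Bd P n, ∃ y ∈ Bd P n, Fle y x ∧ lam y = -lam x := by
  classical
  by_contra hcon
  have hnc : ∀ x ∈ Bd P n, ∀ y ∈ Bd P n, Fle y x → lam y ≠ -lam x := by
    intro x hx y hy hle heq
    exact hcon ⟨x, hx, y, hy, hle, heq⟩
  have hodd' : ∀ k, k < P → T P n k lam % 2 = 1 := by
    intro k
    induction k with
    | zero => intro _; rw [T_zero hP hn h0]
    | succ k ih =>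
      intro hk
      rw [step hn hk hodd hnc]
      exact ih (by omega)
  have h1 := hodd' (P - 1) (by omega)
  have hpos : 0 < T P n (P - 1) lam := by
    rcases Nat.eq_zero_or_pos (T P n (P - 1) lam) with h | h
    · rw [h] at h1; omega
    · exact h
  unfold T at hpos
  rw [card_pos] at hpos
  obtain ⟨s, hs⟩ := hpos
  rw [mem_filter] at hs
  have hsb : ∀ i, s i ∈ Bd P n := by
    have h2 := hs.1
    unfold Fl at h2
    rw [mem_filter, Fintype.mem_piFinset] at h2
    exact h2.1
  rcases hs.2 with h | h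
  · have := h.card_le (p := P - 1) (fun i => hb _ (hsb i))
    omega
  · have := h.card_le (p := P - 1) (fun i => hb _ (hsb i))
    omega

end BU
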